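import Mathlib

/-!
# MP_767f1c_pr: the deterministic construction

`S` is a `2d`-regular graph with an antisymmetric relation `dn` (`dn y x`: `x` is a down neighbour
of `y`) such that every vertex has `u` up neighbours and `v` down neighbours, `u < v`.
From labels `z : V → ℝ` (injective) and `t : V → ℕ` (with `t y < M = 2d-1-2u`) we pair the edges at
every vertex; this decomposes the graph into paths and cycles, each of which is then oriented.
-/

set_option autoImplicit false

namespace Pool.Agent.FIIDBO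

open Set

open Classical in
/-- the combinatorial data -/
structure Sys (V : Type) where
  G : SimpleGraph V
  [lf : G.LocallyFinite]
  dn : V → V → Prop
  d : ℕ
  u : ℕ
  v : ℕ
  asymm : ∀ x y, dn x y → ¬ dn y x
  deg : ∀ y, G.degree y = 2 * d
  up_card : ∀ y, ((G.neighborFinset y).filter (fun x => dn x y)).card = u
  down_card : ∀ y, ((G.neighborFinset y).filter (fun x => dn y x)).card = v
  huv : u < v
  ne : Nonempty V

attribute [instance] Sys.lf

variable {V : Type}

namespace Sys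

variable (S : Sys V)

/-- the number of values of the labels `t` -/
def M : ℕ := 2 * S.d - 1 - 2 * S.u

open Classical in
/-- type of `x` seen from `y`: up, horizontal, down -/
noncomputable def ty (y x : V) : ℕ := if S.dn x y then 0 else if S.dn y x then 2 else 1

/-- comparison of scores -/
def slt (z : V → ℝ) (y x' x : V) : Prop :=
  S.ty y x' < S.ty y x ∨ (S.ty y x' = S.ty y x ∧ z x' < z x)

open Classical in
/-- rank of `x` among the neighbours of `y` -/
noncomputable def rk (z : V → ℝ) (y x : V) : ℕ :=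
  ((S.G.neighborFinset y).filter (fun x' => S.slt z y x' x)).card

/-- pairing of positions -/
def pp (t p : ℕ) : ℕ :=
  Equiv.swap S.u (S.u + t) (2 * S.d - 1 - Equiv.swap S.u (S.u + t) p)

/-- `x'` is the partner of `x` at `y` -/
def isP (z : V → ℝ) (t : V → ℕ) (y x x' : V) : Prop :=
  S.G.Adj y x' ∧ S.rk z y x' = S.pp (t y) (S.rk z y x)

open Classical in
/-- the partner of `x` at `y` -/
noncomputable def pt (z : V → ℝ) (t : V → ℕ) (y x : V) : V :=
  if h : ∃! x', S.isP z t y x x' then h.choose else x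

/-- next dart -/
noncomputable def nx (z : V → ℝ) (t : V → ℕ) (a : V × V) : V × V := (a.2, S.pt z t a.2 a.1)

/-- upward darts -/
def isU (a : V × V) : Prop := S.dn a.2 a.1
/-- horizontal darts -/
def isH (a : V × V) : Prop := ¬ S.dn a.1 a.2 ∧ ¬ S.dn a.2 a.1

/-- critical darts: horizontal, last upward, first downward -/
def crit (z : V → ℝ) (t : V → ℕ) (a : V × V) : Prop :=
  S.isH a ∨ (S.isU a ∧ ¬ S.isU (S.nx z t a)) ∨ (S.isU a.swap ∧ ¬ S.isU (S.nx z t a.swap))

/-- same orbit -/
def so (z : V → ℝ) (t : V → ℕ) (a b : V × V) : Prop :=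
  ∃ n : ℕ, (S.nx z t)^[n] a = b ∨ (S.nx z t)^[n] b = a

/-- critical darts of the orbit of `a` -/
def core (z : V → ℝ) (t : V → ℕ) (a b : V × V) : Prop :=
  S.G.Adj b.1 b.2 ∧ S.so z t a b ∧ S.crit z t b

/-- comparison of darts -/
def klt (z : V → ℝ) (b c : V × V) : Prop :=
  z b.1 < z c.1 ∨ (z b.1 = z c.1 ∧ z b.2 < z c.2)

/-- the orientation -/
def ori (z : V → ℝ) (t : V → ℕ) (a : V × V) : Prop :=
  S.G.Adj a.1 a.2 ∧ (((¬ ∃ b, S.core z t a b) ∧ S.isU a) ∨
    ∃ b, S.core z t a b ∧ ∀ c, S.core z t a.swap c → klt z b c)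

/-! ### ranks -/

variable {S} {z : V → ℝ} {t : V → ℕ}

theorem slt_irrefl (y x : V) : ¬ S.slt z y x x := by
  rintro (h | ⟨-, h⟩)
  · exact lt_irrefl _ h
  · exact lt_irrefl _ h

theorem slt_trans {y a b c : V} (h1 : S.slt z y a b) (h2 : S.slt z y b c) : S.slt z y a c := by
  rcases h1 with h1 | ⟨h1, h1'⟩ <;> rcases h2 with h2 | ⟨h2, h2'⟩
  · exact Or.inl (h1.trans h2)
  · exact Or.inl (h2 ▸ h1)
  · exact Or.inl (h1 ▸ h2)
  · exact Or.inr ⟨h1.trans h2, h1'.trans h2'⟩

theorem slt_total (hz : Function.Injective z) {y a b : V} (h : a ≠ b) :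
    S.slt z y a b ∨ S.slt z y b a := by
  rcases lt_trichotomy (S.ty y a) (S.ty y b) with h1 | h1 | h1
  · exact Or.inl (Or.inl h1)
  · rcases lt_or_gt_of_ne (fun h2 => h (hz h2)) with h2 | h2
    · exact Or.inl (Or.inr ⟨h1, h2⟩)
    · exact Or.inr (Or.inr ⟨h1.symm, h2⟩)
  · exact Or.inr (Or.inl h1)

theorem rk_lt_rk {y a b : V} (ha : S.G.Adj y a) (h : S.slt z y a b) :
    S.rk z y a < S.rk z y b := by
  classical
  apply Finset.card_lt_card
  rw [Finset.ssubset_iff_of_subset]
  · refine ⟨a, ?_, ?_⟩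
    · rw [Finset.mem_filter, SimpleGraph.mem_neighborFinset]; exact ⟨ha, h⟩
    · rw [Finset.mem_filter]; exact fun h' => slt_irrefl _ _ h'.2
  · intro c hc
    rw [Finset.mem_filter] at hc ⊢
    exact ⟨hc.1, slt_trans hc.2 h⟩

theorem rk_inj (hz : Function.Injective z) {y a b : V} (ha : S.G.Adj y a) (hb : S.G.Adj y b)
    (h : S.rk z y a = S.rk z y b) : a = b := by
  by_contra hne
  rcases slt_total (S := S) (y := y) hz hne with h1 | h1
  · exact absurd h (rk_lt_rk ha h1).ne
  · exact absurd h (rk_lt_rk hb h1).ne'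

theorem card_nb (S : Sys V) (y : V) : (S.G.neighborFinset y).card = 2 * S.d := by
  rw [SimpleGraph.card_neighborFinset_eq_degree, S.deg]

theorem rk_lt {y a : V} (ha : S.G.Adj y a) : S.rk z y a < 2 * S.d := by
  classical
  rw [← S.card_nb y]
  apply Finset.card_lt_card
  rw [Finset.filter_ssubset]
  exact ⟨a, by rw [SimpleGraph.mem_neighborFinset]; exact ha, slt_irrefl _ _⟩

theorem exists_rk (hz : Function.Injective z) (y : V) {p : ℕ} (hp : p < 2 * S.d) :
    ∃ a, S.G.Adj y a ∧ S.rk z y a = p := by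
  classical
  have h1 : (S.G.neighborFinset y).image (S.rk z y) = Finset.range (2 * S.d) := by
    apply Finset.eq_of_subset_of_card_le
    · intro q hq
      rw [Finset.mem_image] at hq
      obtain ⟨a, ha, rfl⟩ := hq
      rw [SimpleGraph.mem_neighborFinset] at ha
      rw [Finset.mem_range]
      exact rk_lt ha
    · rw [Finset.card_range, Finset.card_image_of_injOn, S.card_nb]
      intro a ha b hb hab
      rw [Finset.mem_coe, SimpleGraph.mem_neighborFinset] at ha hb
      exact rk_inj hz ha hb hab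
  have h2 : p ∈ (S.G.neighborFinset y).image (S.rk z y) := by
    rw [h1, Finset.mem_range]; exact hp
  rw [Finset.mem_image] at h2
  obtain ⟨a, ha, h3⟩ := h2
  rw [SimpleGraph.mem_neighborFinset] at ha
  exact ⟨a, ha, h3⟩

theorem ty_eq_zero {y x : V} : S.ty y x = 0 ↔ S.dn x y := by
  unfold ty
  split_ifs <;> simp_all

theorem ty_eq_two {y x : V} : S.ty y x = 2 ↔ S.dn y x := by
  unfold ty
  split_ifs with h1 h2
  · simp [S.asymm _ _ h1]
  · simp [h2]
  · simp [h2]

theorem ty_le_two (y x : V) : S.ty y x ≤ 2 := by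
  unfold ty
  split_ifs <;> simp

theorem rk_lt_u {y x : V} (hx : S.G.Adj y x) : S.rk z y x < S.u ↔ S.dn x y := by
  classical
  constructor
  · intro h
    by_contra hcon
    have h1 : S.ty y x ≠ 0 := fun h' => hcon (ty_eq_zero.mp h')
    apply absurd h
    rw [not_lt, ← S.up_card y]
    apply Finset.card_le_card
    intro c hc
    rw [Finset.mem_filter] at hc ⊢
    refine ⟨hc.1, Or.inl ?_⟩
    rw [ty_eq_zero.mpr hc.2]
    omega
  · intro h
    rw [← S.up_card y]
    apply Finset.card_lt_card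
    rw [Finset.ssubset_iff_of_subset]
    · refine ⟨x, ?_, ?_⟩
      · rw [Finset.mem_filter, SimpleGraph.mem_neighborFinset]; exact ⟨hx, h⟩
      · rw [Finset.mem_filter]; exact fun h' => slt_irrefl _ _ h'.2
    · intro c hc
      rw [Finset.mem_filter] at hc ⊢
      refine ⟨hc.1, ?_⟩
      rw [← ty_eq_zero] at h ⊢
      rcases hc.2 with h1 | ⟨h1, -⟩
      · omega
      · omega

theorem card_not_down (S : Sys V) (y : V) :
    by classical exact ((S.G.neighborFinset y).filter (fun x => ¬ S.dn y x)).card =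
      2 * S.d - S.v := by
  classical
  have h1 := Finset.card_filter_add_card_filter_not (s := S.G.neighborFinset y)
    (fun x => S.dn y x)
  have h2 := S.down_card y
  rw [S.card_nb] at h1
  have h3 : ((S.G.neighborFinset y).filter (fun x => S.dn y x)).card = S.v := by
    convert h2
  omega

theorem v_le (S : Sys V) : S.u + S.v ≤ 2 * S.d := by
  classical
  obtain ⟨y⟩ := S.ne
  have h1 := S.up_card y
  have h2 := S.card_not_down y
  have h3 := S.down_card y
  have h4 : ((S.G.neighborFinset y).filter (fun x => S.dn x y)).card ≤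
      ((S.G.neighborFinset y).filter (fun x => ¬ S.dn y x)).card := by
    apply Finset.card_le_card
    intro c hc
    rw [Finset.mem_filter] at hc ⊢
    exact ⟨hc.1, S.asymm _ _ hc.2⟩
  have h5 : ((S.G.neighborFinset y).filter (fun x => S.dn y x)).card ≤ 2 * S.d := by
    rw [← S.card_nb y]
    exact Finset.card_filter_le _ _
  have h1' : ((S.G.neighborFinset y).filter (fun x => S.dn x y)).card = S.u := by convert h1
  have h3' : ((S.G.neighborFinset y).filter (fun x => S.dn y x)).card = S.v := by convert h3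
  omega

theorem le_rk {y x : V} (hx : S.G.Adj y x) : 2 * S.d - S.v ≤ S.rk z y x ↔ S.dn y x := by
  classical
  have hc := S.card_not_down y
  constructor
  · intro h
    by_contra hcon
    have h1 : S.ty y x ≠ 2 := fun h' => hcon (ty_eq_two.mp h')
    have h2 := S.ty_le_two y x
    apply absurd h
    rw [not_le, ← hc]
    apply Finset.card_lt_card
    rw [Finset.ssubset_iff_of_subset]
    · refine ⟨x, ?_, ?_⟩
      · rw [Finset.mem_filter, SimpleGraph.mem_neighborFinset]; exact ⟨hx, hcon⟩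
      · rw [Finset.mem_filter]; exact fun h' => slt_irrefl _ _ h'.2
    · intro c hc
      rw [Finset.mem_filter] at hc ⊢
      refine ⟨hc.1, ?_⟩
      rw [← ty_eq_two]
      rcases hc.2 with h1 | ⟨h1, -⟩
      · omega
      · omega
  · intro h
    rw [← hc]
    apply Finset.card_le_card
    intro c hc
    rw [Finset.mem_filter] at hc ⊢
    refine ⟨hc.1, Or.inl ?_⟩
    have h1 : S.ty y c ≠ 2 := fun h' => hc.2 (ty_eq_two.mp h')
    have h2 := S.ty_le_two y c
    rw [ty_eq_two.mpr h]
    omega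

/-! ### the pairing of positions -/

theorem M_pos (S : Sys V) : 0 < S.M := by
  have := S.v_le
  have := S.huv
  unfold M
  omega

theorem swap_val (a b p : ℕ) : Equiv.swap a b p = if p = a then b else if p = b then a else p :=
  Equiv.swap_apply_def _ _ _

theorem pp_spec (S : Sys V) {t p : ℕ} (ht : t < S.M) (hp : p < 2 * S.d) :
    S.pp t p < 2 * S.d ∧ S.pp t (S.pp t p) = p ∧ S.pp t p ≠ p ∧
    (p < S.u → 2 * S.d - S.v ≤ S.pp t p) ∧ (p = S.u + t → 2 * S.d - S.v ≤ S.pp t p) := by
  have h1 := S.v_le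
  have h2 := S.huv
  unfold M at ht
  unfold pp
  simp only [swap_val]
  split_ifs <;> omega

/-! ### partners -/

section good

variable (hz : Function.Injective z) (ht : ∀ y, t y < S.M)
include hz ht

theorem existsUnique_isP {y x : V} (hx : S.G.Adj y x) : ∃! x', S.isP z t y x x' := by
  obtain ⟨h1, -, -, -⟩ := S.pp_spec (ht y) (rk_lt (z := z) hx)
  obtain ⟨x', h2, h3⟩ := exists_rk (S := S) hz y h1
  exact ⟨x', ⟨h2, h3⟩, fun x'' h => rk_inj hz h.1 h2 (h.2.trans h3.symm)⟩

theorem pt_spec {y x : V} (hx : S.G.Adj y x) : S.isP z t y x (S.pt z t y x) := by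
  unfold pt
  rw [dif_pos (existsUnique_isP hz ht hx)]
  exact (existsUnique_isP hz ht hx).choose_spec.1

theorem pt_pt {y x : V} (hx : S.G.Adj y x) : S.pt z t y (S.pt z t y x) = x := by
  have h1 := pt_spec hz ht hx
  have h2 := pt_spec hz ht h1.1
  apply rk_inj hz h2.1 hx
  rw [h2.2, h1.2]
  exact (S.pp_spec (ht y) (rk_lt hx)).2.1

theorem pt_ne {y x : V} (hx : S.G.Adj y x) : S.pt z t y x ≠ x := by
  intro h
  have h1 := (pt_spec hz ht hx).2
  rw [h] at h1
  exact (S.pp_spec (ht y) (rk_lt (z := z) hx)).2.2.1 h1.symm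

theorem adj_nx {a : V × V} (ha : S.G.Adj a.1 a.2) :
    S.G.Adj (S.nx z t a).1 (S.nx z t a).2 := (pt_spec hz ht ha.symm).1

theorem nx_swap_nx {a : V × V} (ha : S.G.Adj a.1 a.2) :
    S.nx z t (S.nx z t a).swap = a.swap := by
  show (a.2, S.pt z t a.2 (S.pt z t a.2 a.1)) = (a.2, a.1)
  rw [pt_pt hz ht ha.symm]

theorem nx_ne_swap {a : V × V} (ha : S.G.Adj a.1 a.2) : S.nx z t a ≠ a.swap := by
  intro h
  exact pt_ne hz ht ha.symm (congrArg Prod.snd h)

theorem isD_nx {a : V × V} (ha : S.G.Adj a.1 a.2) (h : S.isU a.swap) :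
    S.isU (S.nx z t a).swap := by
  have h1 : S.rk z a.2 a.1 < S.u := (rk_lt_u ha.symm).mpr h
  have h2 := pt_spec hz ht ha.symm
  show S.dn a.2 (S.pt z t a.2 a.1)
  rw [← le_rk (z := z) h2.1, h2.2]
  exact (S.pp_spec (ht a.2) (rk_lt ha.symm)).2.2.2.1 h1

theorem isU_of_nx {a : V × V} (ha : S.G.Adj a.1 a.2) (h : S.isU (S.nx z t a)) : S.isU a := by
  have h1 := isD_nx hz ht (a := (S.nx z t a).swap) (adj_nx hz ht ha).symm
    (by rwa [Prod.swap_swap])
  rwa [nx_swap_nx hz ht ha, Prod.swap_swap] at h1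

theorem isD_nx_exit {a : V × V} (ha : S.G.Adj a.1 a.2) (h : S.rk z a.2 a.1 = S.u + t a.2) :
    S.isU (S.nx z t a).swap := by
  have h2 := pt_spec hz ht ha.symm
  show S.dn a.2 (S.pt z t a.2 a.1)
  rw [← le_rk (z := z) h2.1, h2.2]
  exact (S.pp_spec (ht a.2) (rk_lt ha.symm)).2.2.2.2 h

/-- the permutation of the darts -/
noncomputable def nxE : Equiv.Perm {a : V × V // S.G.Adj a.1 a.2} where
  toFun a := ⟨S.nx z t a.1, adj_nx hz ht a.2⟩
  invFun a := ⟨(S.nx z t a.1.swap).swap, (adj_nx hz ht (a := a.1.swap) a.2.symm).symm⟩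
  left_inv a := by
    apply Subtype.ext
    show (S.nx z t (S.nx z t a.1).swap).swap = a.1
    rw [nx_swap_nx hz ht a.2, Prod.swap_swap]
  right_inv a := by
    apply Subtype.ext
    show S.nx z t (S.nx z t a.1.swap).swap = a.1
    rw [nx_swap_nx hz ht (a := a.1.swap) a.2.symm, Prod.swap_swap]

end good

/-- reversal of darts -/
def rv (S : Sys V) : Equiv.Perm {a : V × V // S.G.Adj a.1 a.2} where
  toFun a := ⟨a.1.swap, a.2.symm⟩
  invFun a := ⟨a.1.swap, a.2.symm⟩
  left_inv a := by
    apply Subtype.ext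
    exact Prod.swap_swap _
  right_inv a := by
    apply Subtype.ext
    exact Prod.swap_swap _

theorem rv_rv (a : {a : V × V // S.G.Adj a.1 a.2}) : S.rv (S.rv a) = a := S.rv.left_inv a

section good

variable (hz : Function.Injective z) (ht : ∀ y, t y < S.M)

theorem nxE_pow_nat (n : ℕ) (a : {a : V × V // S.G.Adj a.1 a.2}) :
    (((nxE hz ht) ^ n) a).1 = (S.nx z t)^[n] a.1 := by
  induction n generalizing a with
  | zero => rfl
  | succ n ih =>
    rw [pow_succ, Equiv.Perm.mul_apply, ih, Function.iterate_succ_apply]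
    rfl

theorem rv_nxE_inv (a : {a : V × V // S.G.Adj a.1 a.2}) :
    S.rv (nxE hz ht a) = (nxE hz ht)⁻¹ (S.rv a) := by
  apply Subtype.ext
  show (S.nx z t a.1).swap = (S.nx z t a.1.swap.swap).swap
  rw [Prod.swap_swap]

theorem rv_zpow (k : ℤ) (a : {a : V × V // S.G.Adj a.1 a.2}) :
    S.rv (((nxE hz ht) ^ k) a) = ((nxE hz ht) ^ (-k)) (S.rv a) := by
  have h1 : S.rv * nxE hz ht * S.rv⁻¹ = (nxE hz ht)⁻¹ := by
    ext1 a
    rw [Equiv.Perm.mul_apply, Equiv.Perm.mul_apply, rv_nxE_inv]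
    congr 1
  have h2 : S.rv * (nxE hz ht) ^ k * S.rv⁻¹ = (nxE hz ht) ^ (-k) := by
    rw [← conj_zpow, h1, inv_zpow, zpow_neg]
  have h3 := congrArg (fun f => f (S.rv a)) h2
  simp only [Equiv.Perm.mul_apply] at h3
  rw [← h3]
  congr 2

theorem so_iff (a b : {a : V × V // S.G.Adj a.1 a.2}) :
    S.so z t a.1 b.1 ↔ ∃ k : ℤ, ((nxE hz ht) ^ k) a = b := by
  constructor
  · rintro ⟨n, h | h⟩
    · exact ⟨n, by rw [zpow_natCast]; exact Subtype.ext ((nxE_pow_nat hz ht n a).trans h)⟩
    · refine ⟨-n, ?_⟩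
      have h1 : ((nxE hz ht) ^ n) b = a := Subtype.ext ((nxE_pow_nat hz ht n b).trans h)
      rw [← h1, zpow_neg, zpow_natCast]
      exact Equiv.symm_apply_apply _ _
  · rintro ⟨k, hk⟩
    obtain ⟨n, rfl | rfl⟩ := k.eq_nat_or_neg
    · refine ⟨n, Or.inl ?_⟩
      rw [zpow_natCast] at hk
      rw [← nxE_pow_nat hz ht, hk]
    · refine ⟨n, Or.inr ?_⟩
      rw [zpow_neg, zpow_natCast] at hk
      rw [← nxE_pow_nat hz ht, ← hk]
      exact congrArg Subtype.val (Equiv.apply_symm_apply ((nxE hz ht) ^ n) a)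

/-- a dart and its reverse are in different orbits -/
theorem rv_ne (k : ℤ) (a : {a : V × V // S.G.Adj a.1 a.2}) : ((nxE hz ht) ^ k) a ≠ S.rv a := by
  intro h
  rcases Int.even_or_odd' k with ⟨m, hm | hm⟩
  · have h1 : S.rv (((nxE hz ht) ^ m) a) = ((nxE hz ht) ^ m) a := by
      rw [rv_zpow, ← h, ← Equiv.Perm.mul_apply, ← zpow_add]
      congr 2
      omega
    have h2 := congrArg (fun b => b.1.1) h1
    have h3 := (((nxE hz ht) ^ m) a).2
    exact h3.ne' h2
  · have h1 : S.rv (((nxE hz ht) ^ m) a) = (nxE hz ht) (((nxE hz ht) ^ m) a) := by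
      rw [rv_zpow, ← h, ← Equiv.Perm.mul_apply, ← Equiv.Perm.mul_apply, ← zpow_add, ← zpow_one_add]
      congr 2
      omega
    exact nx_ne_swap hz ht (((nxE hz ht) ^ m) a).2 (congrArg Subtype.val h1).symm

end good

end Sys

end Pool.Agent.FIIDBO
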