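import Pool.Agent.Lib.MP_767f1c_pr.Det

/-!
# MP_767f1c_pr: the orientation is balanced
-/

set_option autoImplicit false

namespace Pool.Agent.FIIDBO

open Set

variable {V : Type}

namespace Sys

variable {S : Sys V} {z : V → ℝ} {t : V → ℕ}

section good

variable (hz : Function.Injective z) (ht : ∀ y, t y < S.M)

/-- upward darts are preceded by upward darts -/
theorem isU_back (a : {a : V × V // S.G.Adj a.1 a.2}) {k l : ℤ} (hkl : k ≤ l)
    (h : S.isU (((nxE hz ht) ^ l) a).1) : S.isU (((nxE hz ht) ^ k) a).1 := by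
  obtain ⟨n, rfl⟩ := Int.le.dest hkl
  induction n with
  | zero => simpa using h
  | succ n ih =>
    apply ih (by omega)
    have h1 : ((nxE hz ht) ^ (k + ((n + 1 : ℕ) : ℤ))) a =
        (nxE hz ht) (((nxE hz ht) ^ (k + (n : ℤ))) a) := by
      rw [← Equiv.Perm.mul_apply, ← zpow_one_add]
      congr 2
      push_cast
      ring
    rw [h1] at h
    exact isU_of_nx hz ht (((nxE hz ht) ^ (k + (n : ℤ))) a).2 h

/-- downward darts are followed by downward darts -/
theorem isD_forward (a : {a : V × V // S.G.Adj a.1 a.2}) {k l : ℤ} (hkl : k ≤ l)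
    (h : S.isU (((nxE hz ht) ^ k) a).1.swap) : S.isU (((nxE hz ht) ^ l) a).1.swap := by
  have e : ∀ m : ℤ, (((nxE hz ht) ^ m) a).1.swap = (((nxE hz ht) ^ (-m)) (S.rv a)).1 := by
    intro m
    rw [← rv_zpow]
    rfl
  rw [e] at h ⊢
  exact isU_back hz ht (S.rv a) (by omega) h

theorem not_isU_swap {a : V × V} (h : S.isU a) : ¬ S.isU a.swap := S.asymm _ _ h

theorem isH_iff (a : V × V) : S.isH a ↔ ¬ S.isU a ∧ ¬ S.isU a.swap := by
  unfold isH isU
  simp only [Prod.fst_swap, Prod.snd_swap]
  exact and_comm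

theorem isH_swap (a : V × V) : S.isH a.swap ↔ S.isH a := by
  rw [isH_iff, isH_iff, Prod.swap_swap]
  exact and_comm

theorem crit_swap (a : V × V) : S.crit z t a.swap ↔ S.crit z t a := by
  unfold crit
  rw [isH_swap, Prod.swap_swap]
  tauto

/-- hypothesis: no infinite horizontal path -/
def NoInf (S : Sys V) (z : V → ℝ) (t : V → ℕ) : Prop :=
  ∀ b : V × V, S.G.Adj b.1 b.2 →
    (∃ k : ℕ, ¬ S.isH ((S.nx z t)^[k] b)) ∨ ¬ Function.Injective (fun k : ℕ => (S.nx z t)^[k] b)

include hz ht in
theorem core_finite (hn : S.NoInf z t) (a : V × V) (ha : S.G.Adj a.1 a.2) :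
    {b | S.core z t a b}.Finite := by
  set a' : {a : V × V // S.G.Adj a.1 a.2} := ⟨a, ha⟩ with ha'
  set f : ℤ → {a : V × V // S.G.Adj a.1 a.2} := fun k => ((nxE hz ht) ^ k) a' with hf
  have hsub : {b | S.core z t a b} ⊆ (fun k => (f k).1) '' {k | S.crit z t (f k).1} := by
    rintro b ⟨h1, h2, h3⟩
    obtain ⟨k, hk⟩ := (so_iff hz ht a' ⟨b, h1⟩).mp h2
    refine ⟨k, ?_, ?_⟩
    · show S.crit z t (((nxE hz ht) ^ k) a').1
      rw [hk]; exact h3
    · show (((nxE hz ht) ^ k) a').1 = b
      rw [hk]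
  apply Set.Finite.subset _ hsub
  have hnx : ∀ k, S.nx z t (f k).1 = (f (k + 1)).1 := by
    intro k
    have h1 : f (k + 1) = (nxE hz ht) (f k) := by
      simp only [hf]
      rw [← Equiv.Perm.mul_apply, ← zpow_one_add]
      congr 2
      ring
    rw [h1]
    rfl
  have hnx' : ∀ k, S.nx z t (f k).1.swap = (f (k - 1)).1.swap := by
    intro k
    have h1 := hnx (k - 1)
    rw [sub_add_cancel] at h1
    rw [← h1]
    exact nx_swap_nx hz ht (f (k - 1)).2
  by_cases hinj : Function.Injective f
  · -- injective orbit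
    apply Set.Finite.image
    have hsub2 : {k | S.crit z t (f k).1} ⊆ {k | S.isH (f k).1} ∪
        ({k | S.isU (f k).1 ∧ ¬ S.isU (f (k + 1)).1} ∪
          {k | S.isU (f k).1.swap ∧ ¬ S.isU (f (k - 1)).1.swap}) := by
      rintro k (h | ⟨h, h'⟩ | ⟨h, h'⟩)
      · exact Or.inl h
      · rw [hnx] at h'
        exact Or.inr (Or.inl ⟨h, h'⟩)
      · rw [hnx'] at h'
        exact Or.inr (Or.inr ⟨h, h'⟩)
    apply Set.Finite.subset _ hsub2
    refine Set.Finite.union ?_ (Set.Finite.union ?_ ?_)
    · -- the horizontal part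
      by_cases hne : ∃ k0, S.isH (f k0).1
      · obtain ⟨k0, hk0⟩ := hne
        have hup : ∃ n : ℕ, ∀ l : ℤ, k0 + n ≤ l → ¬ S.isH (f l).1 := by
          have hit : ∀ n : ℕ, (S.nx z t)^[n] (f k0).1 = (f (k0 + n)).1 := by
            intro n
            rw [← nxE_pow_nat hz ht]
            simp only [hf]
            rw [← Equiv.Perm.mul_apply, ← zpow_natCast, ← zpow_add]
            congr 3
            ring
          rcases hn (f k0).1 (f k0).2 with ⟨n, hn1⟩ | hn1
          · refine ⟨n, fun l hl hH => ?_⟩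
            rw [hit] at hn1
            have h0 := (isH_iff _).mp hk0
            have h1 : ¬ S.isU (f (k0 + n)).1 := fun h =>
              h0.1 (isU_back hz ht a' (by omega) h)
            have h2 : S.isU (f (k0 + n)).1.swap := by
              by_contra h3
              exact hn1 ((isH_iff _).mpr ⟨h1, h3⟩)
            exact ((isH_iff _).mp hH).2 (isD_forward hz ht a' hl h2)
          · exfalso
            apply hn1
            intro i j hij
            simp only at hij
            rw [hit, hit] at hij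
            have := hinj (Subtype.ext hij)
            omega
        have hdn : ∃ n : ℕ, ∀ l : ℤ, l ≤ k0 - n → ¬ S.isH (f l).1 := by
          have hit : ∀ n : ℕ, (S.nx z t)^[n] (f k0).1.swap = (f (k0 - n)).1.swap := by
            intro n
            induction n with
            | zero => simp
            | succ n ih =>
              rw [Function.iterate_succ_apply', ih, hnx']
              congr 3
              push_cast
              ring
          rcases hn (f k0).1.swap (f k0).2.symm with ⟨n, hn1⟩ | hn1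
          · refine ⟨n, fun l hl hH => ?_⟩
            rw [hit, isH_swap] at hn1
            have h0 := (isH_iff _).mp hk0
            have h1 : ¬ S.isU (f (k0 - n)).1.swap := fun h =>
              h0.2 (isD_forward hz ht a' (by omega) h)
            have h2 : S.isU (f (k0 - n)).1 := by
              by_contra h3
              exact hn1 ((isH_iff _).mpr ⟨h3, h1⟩)
            exact ((isH_iff _).mp hH).1 (isU_back hz ht a' hl h2)
          · exfalso
            apply hn1
            intro i j hij
            simp only at hij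
            rw [hit, hit] at hij
            have := hinj (Subtype.ext (Prod.swap_injective hij))
            omega
        obtain ⟨n1, hn1⟩ := hup
        obtain ⟨n2, hn2⟩ := hdn
        apply Set.Finite.subset (Set.finite_Icc (k0 - n2) (k0 + n1))
        intro k hk
        refine ⟨?_, ?_⟩
        · by_contra h; exact hn2 k (by omega) hk
        · by_contra h; exact hn1 k (by omega) hk
      · push Not at hne
        convert Set.finite_empty
        ext k
        simp [hne k]
    · apply Set.Subsingleton.finite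
      rintro k ⟨h1, h2⟩ l ⟨h3, h4⟩
      rcases lt_trichotomy k l with h | h | h
      · exact absurd (isU_back hz ht a' (by omega) h3) h2
      · exact h
      · exact absurd (isU_back hz ht a' (by omega) h1) h4
    · apply Set.Subsingleton.finite
      rintro k ⟨h1, h2⟩ l ⟨h3, h4⟩
      rcases lt_trichotomy k l with h | h | h
      · exact absurd (isD_forward hz ht a' (by omega) h1) h4
      · exact h
      · exact absurd (isD_forward hz ht a' (by omega) h3) h2
  · -- finite orbit
    apply Set.Finite.subset _ (Set.image_subset_range _ _)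
    have hper : ∃ m : ℕ, 0 < m ∧ ((nxE hz ht) ^ (m : ℤ)) a' = a' := by
      rw [Function.Injective] at hinj
      push Not at hinj
      obtain ⟨i, j, hij, hne⟩ := hinj
      have key : ∀ i j : ℤ, f i = f j → i < j → ∃ m : ℕ, 0 < m ∧
          ((nxE hz ht) ^ (m : ℤ)) a' = a' := by
        intro i j hij hlt
        refine ⟨(j - i).toNat, by omega, ?_⟩
        rw [Int.toNat_of_nonneg (by omega), sub_eq_neg_add, zpow_add, Equiv.Perm.mul_apply]
        have : ((nxE hz ht) ^ j) a' = ((nxE hz ht) ^ i) a' := hij.symm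
        rw [this, zpow_neg]
        exact Equiv.symm_apply_apply _ _
      rcases lt_or_gt_of_ne hne with h | h
      · exact key i j hij h
      · exact key j i hij.symm h
    obtain ⟨m, hm, hm2⟩ := hper
    have hmul : ∀ q : ℤ, ((nxE hz ht) ^ ((m : ℤ) * q)) a' = a' := by
      intro q
      have h1 : ∀ n : ℕ, (((nxE hz ht) ^ (m : ℤ)) ^ n) a' = a' := by
        intro n
        induction n with
        | zero => rfl
        | succ n ih => rw [pow_succ, Equiv.Perm.mul_apply, hm2, ih]
      rw [zpow_mul]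
      obtain ⟨n, rfl | rfl⟩ := q.eq_nat_or_neg
      · rw [zpow_natCast]; exact h1 n
      · rw [zpow_neg, zpow_natCast]
        conv_lhs => rw [← h1 n]
        exact Equiv.symm_apply_apply _ _
    apply Set.Finite.subset ((Set.finite_Ico (0 : ℤ) m).image (fun k => (f k).1))
    rintro _ ⟨k, rfl⟩
    refine ⟨k % m, ⟨Int.emod_nonneg _ (by omega), Int.emod_lt_of_pos _ (by omega)⟩, ?_⟩
    simp only
    congr 1
    have h1 : k = k % m + m * (k / m) := (Int.emod_add_mul_ediv k m).symm
    conv_rhs => rw [hf]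
    simp only
    conv_rhs => rw [h1, zpow_add, Equiv.Perm.mul_apply, hmul]

/-- transport of the core along the orbit -/
theorem core_congr {a b : {a : V × V // S.G.Adj a.1 a.2}} (k : ℤ)
    (h : ((nxE hz ht) ^ k) a = b) (c : V × V) : S.core z t a.1 c ↔ S.core z t b.1 c := by
  unfold core
  constructor
  · rintro ⟨h1, h2, h3⟩
    refine ⟨h1, ?_, h3⟩
    obtain ⟨l, hl⟩ := (so_iff hz ht a ⟨c, h1⟩).mp h2
    rw [so_iff hz ht b ⟨c, h1⟩]
    refine ⟨l - k, ?_⟩
    rw [← h, ← Equiv.Perm.mul_apply, ← zpow_add, sub_add_cancel, hl]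
  · rintro ⟨h1, h2, h3⟩
    refine ⟨h1, ?_, h3⟩
    obtain ⟨l, hl⟩ := (so_iff hz ht b ⟨c, h1⟩).mp h2
    rw [so_iff hz ht a ⟨c, h1⟩]
    refine ⟨l + k, ?_⟩
    rw [zpow_add, Equiv.Perm.mul_apply, h, hl]

include hz ht in
theorem core_swap {a : {a : V × V // S.G.Adj a.1 a.2}} (c : V × V) :
    S.core z t a.1.swap c ↔ S.core z t a.1 c.swap := by
  unfold core
  constructor
  · rintro ⟨h1, h2, h3⟩
    refine ⟨h1.symm, ?_, (crit_swap _).mpr h3⟩
    obtain ⟨l, hl⟩ := (so_iff hz ht (S.rv a) ⟨c, h1⟩).mp h2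
    have h4 := (so_iff hz ht a (S.rv ⟨c, h1⟩)).mpr ⟨-l, ?_⟩
    · exact h4
    · rw [← hl, rv_zpow, rv_rv]
  · rintro ⟨h1, h2, h3⟩
    have h1' : S.G.Adj c.1 c.2 := h1.symm
    refine ⟨h1', ?_, (crit_swap _).mp h3⟩
    obtain ⟨l, hl⟩ := (so_iff hz ht a ⟨c.swap, h1⟩).mp h2
    have h4 := (so_iff hz ht (S.rv a) ⟨c, h1'⟩).mpr ⟨-l, ?_⟩
    · exact h4
    · rw [← rv_zpow, hl]
      exact Subtype.ext (Prod.swap_swap _)

include hz ht in
/-- the orientation is constant along the paths -/
theorem ori_nx (a : {a : V × V // S.G.Adj a.1 a.2}) :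
    S.ori z t a.1 ↔ S.ori z t (S.nx z t a.1) := by
  have h1 : ∀ c, S.core z t a.1 c ↔ S.core z t (S.nx z t a.1) c := fun c =>
    core_congr hz ht (b := nxE hz ht a) 1 (by rw [zpow_one]) c
  have h2 : ∀ c, S.core z t a.1.swap c ↔ S.core z t (S.nx z t a.1).swap c := fun c =>
    (core_congr hz ht (a := S.rv (nxE hz ht a)) (b := S.rv a) 1 (by
      rw [zpow_one]
      apply Subtype.ext
      exact nx_swap_nx hz ht a.2) c).symm
  have hadj := adj_nx hz ht a.2
  unfold ori
  simp only [h1, h2, a.2, hadj, true_and]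
  apply or_congr _ Iff.rfl
  apply and_congr_right
  intro hno
  constructor
  · intro hU
    by_contra hcon
    apply hno
    refine ⟨a.1, (h1 _).mp ⟨a.2, ⟨0, Or.inl rfl⟩, Or.inr (Or.inl ⟨hU, hcon⟩)⟩⟩
  · exact fun hU => isU_of_nx hz ht a.2 hU

theorem klt_trans {b c e : V × V} (h1 : klt z b c) (h2 : klt z c e) : klt z b e := by
  unfold klt at *
  rcases h1 with h1 | ⟨h1, h1'⟩ <;> rcases h2 with h2 | ⟨h2, h2'⟩
  · exact Or.inl (h1.trans h2)
  · exact Or.inl (h2 ▸ h1)
  · exact Or.inl (h1 ▸ h2)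
  · exact Or.inr ⟨h1.trans h2, h1'.trans h2'⟩

theorem klt_iff (b c : V × V) : klt z b c ↔ toLex (z b.1, z b.2) < toLex (z c.1, z c.2) := by
  rw [Prod.Lex.toLex_lt_toLex]
  rfl

include hz in
theorem key_inj {b c : V × V} (h : toLex (z b.1, z b.2) = toLex (z c.1, z c.2)) : b = c := by
  have h1 := toLex.injective h
  rw [Prod.mk.injEq] at h1
  exact Prod.ext (hz h1.1) (hz h1.2)

include hz ht in
/-- exactly one direction -/
theorem ori_swap (hn : S.NoInf z t) (a : {a : V × V // S.G.Adj a.1 a.2}) :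
    S.ori z t a.1 ↔ ¬ S.ori z t a.1.swap := by
  have hsw : ∀ c, S.core z t a.1.swap.swap c ↔ S.core z t a.1 c := by
    intro c; rw [Prod.swap_swap]
  by_cases hne : ∃ b, S.core z t a.1 b
  · have hfin := core_finite hz ht hn a.1 a.2
    have hfin' := core_finite hz ht hn a.1.swap a.2.symm
    obtain ⟨m, hm, hmin⟩ := Set.exists_min_image ({b | S.core z t a.1 b} ∪ {b | S.core z t a.1.swap b})
      (fun b => toLex (z b.1, z b.2)) (hfin.union hfin') (by
        obtain ⟨b, hb⟩ := hne
        exact ⟨b, Or.inl hb⟩)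
    have hdisj : ∀ c, S.core z t a.1 c → S.core z t a.1.swap c → False := by
      rintro c ⟨h1, h2, -⟩ ⟨-, h3, -⟩
      obtain ⟨k, hk⟩ := (so_iff hz ht a ⟨c, h1⟩).mp h2
      obtain ⟨l, hl⟩ := (so_iff hz ht (S.rv a) ⟨c, h1⟩).mp h3
      apply rv_ne hz ht (-l + k) a
      rw [zpow_add, Equiv.Perm.mul_apply, hk, ← hl, zpow_neg]
      exact Equiv.symm_apply_apply _ _
    have hlt : ∀ c, c ≠ m → (S.core z t a.1 c ∨ S.core z t a.1.swap c) → klt z m c := by
      intro c hc hc2
      rw [klt_iff]
      apply lt_of_le_of_ne (hmin c hc2)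
      intro h
      exact hc (key_inj hz h).symm
    have hirr : ∀ c, klt z c m → (S.core z t a.1 c ∨ S.core z t a.1.swap c) → False := by
      intro c hc hc2
      rw [klt_iff] at hc
      exact absurd (hmin c hc2) (not_le.mpr hc)
    have hne' : ∃ b, S.core z t a.1.swap b := by
      obtain ⟨b, hb⟩ := hne
      exact ⟨b.swap, (core_swap hz ht _).mpr (by rwa [Prod.swap_swap])⟩
    rcases hm with hm | hm
    · have h1 : S.ori z t a.1 := ⟨a.2, Or.inr ⟨m, hm, fun c hc =>
        hlt c (fun h => hdisj m hm (h ▸ hc)) (Or.inr hc)⟩⟩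
      refine ⟨fun _ h2 => ?_, fun _ => h1⟩
      rcases h2.2 with ⟨h3, -⟩ | ⟨b, hb, h3⟩
      · exact h3 hne'
      · exact hirr b (h3 m ((hsw m).mpr hm)) (Or.inr hb)
    · have h1 : S.ori z t a.1.swap := ⟨a.2.symm, Or.inr ⟨m, hm, fun c hc =>
        hlt c (fun h => hdisj m (h ▸ (hsw c).mp hc) hm) (Or.inl ((hsw c).mp hc))⟩⟩
      refine ⟨fun h2 => ?_, fun h => absurd h1 h⟩
      exfalso
      rcases h2.2 with ⟨h3, -⟩ | ⟨b, hb, h3⟩
      · exact h3 hne
      · exact hirr b (h3 m hm) (Or.inl hb)
  · have hne' : ¬ ∃ b, S.core z t a.1.swap b := by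
      rintro ⟨b, hb⟩
      exact hne ⟨b.swap, (core_swap hz ht _).mp hb⟩
    have hnc : ¬ S.crit z t a.1 := fun h => hne ⟨a.1, a.2, ⟨0, Or.inl rfl⟩, h⟩
    have hnH : ¬ S.isH a.1 := fun h => hnc (Or.inl h)
    unfold ori
    have hA : S.G.Adj a.1.swap.1 a.1.swap.2 := a.2.symm
    have hsw' : ¬ ∃ b, S.core z t a.1 b ∧ ∀ c, S.core z t a.1.swap c → klt z b c := by
      rintro ⟨b, hb, -⟩; exact hne ⟨b, hb⟩
    have hsw'' : ¬ ∃ b, S.core z t a.1.swap b ∧ ∀ c, S.core z t a.1.swap.swap c → klt z b c := by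
      rintro ⟨b, hb, -⟩; exact hne' ⟨b, hb⟩
    simp only [a.2, hA, hne, hne', hsw', hsw'', not_false_eq_true, true_and, or_false]
    rw [isH_iff] at hnH
    constructor
    · exact fun h => not_isU_swap h
    · intro h
      by_contra h2
      exact hnH ⟨h2, h⟩

include hz ht in
open Classical in
/-- the orientation is balanced -/
theorem ori_balanced (hn : S.NoInf z t) (y : V) :
    ((S.G.neighborFinset y).filter (fun x => S.ori z t (y, x))).card = S.d ∧
    ((S.G.neighborFinset y).filter (fun x => S.ori z t (x, y))).card = S.d := by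
  have h1 : ((S.G.neighborFinset y).filter (fun x => S.ori z t (x, y))).card =
      ((S.G.neighborFinset y).filter (fun x => S.ori z t (y, x))).card := by
    apply Finset.card_nbij' (fun x => S.pt z t y x) (fun x => S.pt z t y x)
    · intro x hx
      rw [Finset.mem_coe, Finset.mem_filter, SimpleGraph.mem_neighborFinset] at hx ⊢
      refine ⟨(pt_spec hz ht hx.1).1, ?_⟩
      exact (ori_nx hz ht ⟨(x, y), hx.1.symm⟩).mp hx.2
    · intro x hx
      rw [Finset.mem_coe, Finset.mem_filter, SimpleGraph.mem_neighborFinset] at hx ⊢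
      have h2 := pt_spec hz ht hx.1
      refine ⟨h2.1, ?_⟩
      rw [ori_nx hz ht ⟨(S.pt z t y x, y), h2.1.symm⟩]
      show S.ori z t (y, S.pt z t y (S.pt z t y x))
      rw [pt_pt hz ht hx.1]
      exact hx.2
    · intro x hx
      rw [Finset.mem_coe, Finset.mem_filter, SimpleGraph.mem_neighborFinset] at hx
      exact pt_pt hz ht hx.1
    · intro x hx
      rw [Finset.mem_coe, Finset.mem_filter, SimpleGraph.mem_neighborFinset] at hx
      exact pt_pt hz ht hx.1
  have h2 : (S.G.neighborFinset y).filter (fun x => S.ori z t (y, x)) =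
      (S.G.neighborFinset y).filter (fun x => ¬ S.ori z t (x, y)) := by
    apply Finset.filter_congr
    intro x hx
    rw [SimpleGraph.mem_neighborFinset] at hx
    exact ori_swap hz ht hn ⟨(y, x), hx⟩
  have h3 := Finset.card_filter_add_card_filter_not (s := S.G.neighborFinset y)
    (fun x => S.ori z t (x, y))
  rw [card_nb] at h3
  rw [← h2] at h3
  omega

end good

end Sys

end Pool.Agent.FIIDBO
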