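import Pool.Agent.Lib.MP_767f1c_pr.Det

/-!
# MP_767f1c_pr: equivariance and measurability of the construction
-/

set_option autoImplicit false

namespace Pool.Agent.FIIDBO

open Set MeasureTheory

variable {V : Type}

namespace Sys

variable {S : Sys V}

section equi

variable (φ : S.G ≃g S.G) (hφ : ∀ x y, S.dn (φ x) (φ y) ↔ S.dn x y) (z : V → ℝ) (t : V → ℕ)

include hφ in
theorem ty_map (y x : V) : S.ty (φ y) (φ x) = S.ty y x := by
  have h1 := hφ x y
  have h2 := hφ y x
  unfold ty
  by_cases g1 : S.dn x y
  · rw [if_pos (h1.mpr g1), if_pos g1]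
  · rw [if_neg (fun h => g1 (h1.mp h)), if_neg g1]
    by_cases g2 : S.dn y x
    · rw [if_pos (h2.mpr g2), if_pos g2]
    · rw [if_neg (fun h => g2 (h2.mp h)), if_neg g2]

include hφ in
theorem slt_map (y a b : V) : S.slt z (φ y) (φ a) (φ b) ↔ S.slt (fun x => z (φ x)) y a b := by
  unfold slt
  simp only [ty_map φ hφ]

include hφ in
theorem rk_map (y x : V) : S.rk z (φ y) (φ x) = S.rk (fun x => z (φ x)) y x := by
  classical
  unfold rk
  symm
  apply Finset.card_nbij' (fun x => φ x) (fun x => φ.symm x)
  · intro w hw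
    rw [Finset.mem_coe, Finset.mem_filter, SimpleGraph.mem_neighborFinset] at hw ⊢
    exact ⟨φ.map_adj_iff.mpr hw.1, (slt_map φ hφ z _ _ _).mpr hw.2⟩
  · intro w hw
    rw [Finset.mem_coe, Finset.mem_filter, SimpleGraph.mem_neighborFinset] at hw ⊢
    constructor
    · rw [← φ.map_adj_iff]; simpa using hw.1
    · rw [← slt_map φ hφ]; simpa using hw.2
  · intro w _; simp
  · intro w _; simp

include hφ in
theorem isP_map (y x x' : V) : S.isP z t (φ y) (φ x) (φ x') ↔
    S.isP (fun x => z (φ x)) (fun x => t (φ x)) y x x' := by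
  unfold isP
  rw [rk_map φ hφ, rk_map φ hφ, φ.map_adj_iff]

include hφ in
theorem pt_map (y x : V) : S.pt z t (φ y) (φ x) =
    φ (S.pt (fun x => z (φ x)) (fun x => t (φ x)) y x) := by
  have key : ∀ x', S.isP z t (φ y) (φ x) x' ↔
      S.isP (fun x => z (φ x)) (fun x => t (φ x)) y x (φ.symm x') := by
    intro x'
    rw [← isP_map φ hφ]
    simp
  have hex : (∃! x', S.isP z t (φ y) (φ x) x') ↔
      ∃! x', S.isP (fun x => z (φ x)) (fun x => t (φ x)) y x x' := by
    constructor
    · rintro ⟨w, h1, h2⟩
      refine ⟨φ.symm w, (key w).mp h1, fun w' hw' => ?_⟩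
      rw [← h2 (φ w') ((isP_map φ hφ z t y x w').mpr hw')]
      simp
    · rintro ⟨w, h1, h2⟩
      refine ⟨φ w, (isP_map φ hφ z t y x w).mpr h1, fun w' hw' => ?_⟩
      have := h2 _ ((key w').mp hw')
      rw [← this]
      simp
  unfold pt
  by_cases h : ∃! x', S.isP (fun x => z (φ x)) (fun x => t (φ x)) y x x'
  · rw [dif_pos h, dif_pos (hex.mpr h)]
    apply (hex.mpr h).unique (hex.mpr h).choose_spec.1
    exact (isP_map φ hφ z t y x _).mpr h.choose_spec.1
  · rw [dif_neg h, dif_neg (fun h' => h (hex.mp h'))]

include hφ in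
theorem nx_map (a : V × V) : S.nx z t (Prod.map φ φ a) =
    Prod.map φ φ (S.nx (fun x => z (φ x)) (fun x => t (φ x)) a) := by
  show (φ a.2, S.pt z t (φ a.2) (φ a.1)) = _
  rw [pt_map φ hφ]
  rfl

include hφ in
theorem nx_iter_map (n : ℕ) (a : V × V) : (S.nx z t)^[n] (Prod.map φ φ a) =
    Prod.map φ φ ((S.nx (fun x => z (φ x)) (fun x => t (φ x)))^[n] a) := by
  induction n generalizing a with
  | zero => rfl
  | succ n ih => rw [Function.iterate_succ_apply, nx_map φ hφ, ih, Function.iterate_succ_apply]

include hφ in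
theorem isU_map (a : V × V) : S.isU (Prod.map φ φ a) ↔ S.isU a := hφ _ _

include hφ in
theorem isH_map (a : V × V) : S.isH (Prod.map φ φ a) ↔ S.isH a := by
  unfold isH
  simp only [Prod.map_fst, Prod.map_snd, hφ]

include hφ in
theorem crit_map (a : V × V) : S.crit z t (Prod.map φ φ a) ↔
    S.crit (fun x => z (φ x)) (fun x => t (φ x)) a := by
  have h1 : (Prod.map φ φ a).swap = Prod.map φ φ a.swap := rfl
  unfold crit
  rw [h1, nx_map φ hφ, nx_map φ hφ, isH_map φ hφ, isU_map φ hφ, isU_map φ hφ, isU_map φ hφ,
    isU_map φ hφ]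

theorem map_inj {a b : V × V} (h : Prod.map φ φ a = Prod.map φ φ b) : a = b :=
  Prod.ext (φ.injective (congrArg Prod.fst h)) (φ.injective (congrArg Prod.snd h))

include hφ in
theorem so_map (a b : V × V) : S.so z t (Prod.map φ φ a) (Prod.map φ φ b) ↔
    S.so (fun x => z (φ x)) (fun x => t (φ x)) a b := by
  unfold so
  simp only [nx_iter_map φ hφ]
  constructor
  · rintro ⟨n, h | h⟩
    · exact ⟨n, Or.inl (map_inj φ h)⟩
    · exact ⟨n, Or.inr (map_inj φ h)⟩
  · rintro ⟨n, h | h⟩
    · exact ⟨n, Or.inl (congrArg _ h)⟩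
    · exact ⟨n, Or.inr (congrArg _ h)⟩

include hφ in
theorem core_map (a b : V × V) : S.core z t (Prod.map φ φ a) (Prod.map φ φ b) ↔
    S.core (fun x => z (φ x)) (fun x => t (φ x)) a b := by
  unfold core
  rw [so_map φ hφ, crit_map φ hφ]
  simp only [Prod.map_fst, Prod.map_snd, φ.map_adj_iff]

theorem map_symm_eq (b : V × V) : Prod.map φ φ (Prod.map φ.symm φ.symm b) = b := by
  apply Prod.ext <;> simp

include hφ in
theorem ori_map (a : V × V) : S.ori z t (Prod.map φ φ a) ↔
    S.ori (fun x => z (φ x)) (fun x => t (φ x)) a := by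
  have h1 : (Prod.map φ φ a).swap = Prod.map φ φ a.swap := rfl
  have e1 : (∃ b, S.core z t (Prod.map φ φ a) b) ↔
      ∃ b, S.core (fun x => z (φ x)) (fun x => t (φ x)) a b := by
    constructor
    · rintro ⟨b, hb⟩
      refine ⟨Prod.map φ.symm φ.symm b, ?_⟩
      rw [← core_map φ hφ, map_symm_eq]
      exact hb
    · rintro ⟨b, hb⟩
      exact ⟨_, (core_map φ hφ z t a b).mpr hb⟩
  have e2 : (∃ b, S.core z t (Prod.map φ φ a) b ∧
        ∀ c, S.core z t (Prod.map φ φ a.swap) c → klt z b c) ↔
      ∃ b, S.core (fun x => z (φ x)) (fun x => t (φ x)) a b ∧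
        ∀ c, S.core (fun x => z (φ x)) (fun x => t (φ x)) a.swap c →
          klt (fun x => z (φ x)) b c := by
    constructor
    · rintro ⟨b, hb, hb2⟩
      refine ⟨Prod.map φ.symm φ.symm b, ?_, fun c hc => ?_⟩
      · rw [← core_map φ hφ, map_symm_eq]
        exact hb
      · have := hb2 _ ((core_map φ hφ z t a.swap c).mpr hc)
        unfold klt at this ⊢
        simpa using this
    · rintro ⟨b, hb, hb2⟩
      refine ⟨_, (core_map φ hφ z t a b).mpr hb, fun c hc => ?_⟩
      have h3 := hb2 (Prod.map φ.symm φ.symm c) (by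
        rw [← core_map φ hφ, map_symm_eq]; exact hc)
      unfold klt at h3 ⊢
      simpa using h3
  unfold ori
  rw [h1, e1, e2, isU_map φ hφ]
  simp only [Prod.map_fst, Prod.map_snd, φ.map_adj_iff]

end equi

section meas

variable {Ω : Type} [MeasurableSpace Ω] [Countable V] {z : Ω → V → ℝ} {t : Ω → V → ℕ}
  (hz : ∀ x, Measurable (fun ω => z ω x)) (ht : ∀ x, Measurable (fun ω => t ω x))

include hz in
omit [Countable V] in
theorem meas_slt (y a b : V) : Measurable (fun ω => S.slt (z ω) y a b) := by
  unfold slt
  apply Measurable.or measurable_const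
  apply Measurable.and measurable_const
  exact measurableSet_setOfPred.mp (measurableSet_lt (hz a) (hz b))

include hz in
omit [Countable V] in
theorem meas_rk (y x : V) : Measurable (fun ω => S.rk (z ω) y x) := by
  classical
  have h1 : (fun ω => S.rk (z ω) y x) = fun ω =>
      ∑ x' ∈ S.G.neighborFinset y, if S.slt (z ω) y x' x then 1 else 0 := by
    funext ω
    unfold rk
    rw [Finset.card_filter]
  rw [h1]
  apply Finset.measurable_sum
  intro x' _
  apply Measurable.ite _ measurable_const measurable_const
  exact measurableSet_setOfPred.mpr (meas_slt hz y x' x)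

include hz ht in
omit [Countable V] in
theorem meas_isP (y x x' : V) : Measurable (fun ω => S.isP (z ω) (t ω) y x x') := by
  unfold isP
  apply Measurable.and measurable_const
  apply measurableSet_setOfPred.mp
  apply measurableSet_eq_fun (meas_rk hz y x')
  have h1 : Measurable (fun p : ℕ × ℕ => S.pp p.1 p.2) := measurable_of_countable _
  exact h1.comp ((ht y).prodMk (meas_rk hz y x))

omit [Countable V] in
theorem pt_eq_iff (z : V → ℝ) (t : V → ℕ) (y x c : V) : S.pt z t y x = c ↔
    ((∃ w, S.isP z t y x w ∧ ∀ w', S.isP z t y x w' → w' = w) ∧ S.isP z t y x c) ∨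
    ((¬ ∃ w, S.isP z t y x w ∧ ∀ w', S.isP z t y x w' → w' = w) ∧ x = c) := by
  unfold pt
  by_cases h : ∃! x', S.isP z t y x x'
  · rw [dif_pos h]
    have h' : ∃ w, S.isP z t y x w ∧ ∀ w', S.isP z t y x w' → w' = w := h
    simp only [h', true_and, not_true_eq_false, false_and, or_false]
    constructor
    · intro h2
      rw [← h2]
      exact h.choose_spec.1
    · intro h2
      exact h.unique h.choose_spec.1 h2
  · rw [dif_neg h]
    have h' : ¬ ∃ w, S.isP z t y x w ∧ ∀ w', S.isP z t y x w' → w' = w := h
    simp only [h', false_and, not_false_eq_true, true_and, false_or]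

include hz ht in
theorem meas_pt (y x c : V) : Measurable (fun ω => S.pt (z ω) (t ω) y x = c) := by
  simp only [pt_eq_iff]
  have h1 : Measurable (fun ω => ∃ w, S.isP (z ω) (t ω) y x w ∧
      ∀ w', S.isP (z ω) (t ω) y x w' → w' = w) := by
    apply Measurable.exists
    intro w
    apply (meas_isP hz ht y x w).and
    apply Measurable.forall
    intro w'
    exact (meas_isP hz ht y x w').imp measurable_const
  exact (h1.and (meas_isP hz ht y x c)).or (h1.not.and measurable_const)

include hz ht in
theorem meas_nx (a b : V × V) : Measurable (fun ω => S.nx (z ω) (t ω) a = b) := by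
  have h1 : (fun ω => S.nx (z ω) (t ω) a = b) =
      fun ω => (a.2 = b.1 ∧ S.pt (z ω) (t ω) a.2 a.1 = b.2) := by
    funext ω
    unfold nx
    rw [Prod.ext_iff]
  rw [h1]
  exact measurable_const.and (meas_pt hz ht _ _ _)

include hz ht in
theorem meas_iter (n : ℕ) (a b : V × V) : Measurable (fun ω => (S.nx (z ω) (t ω))^[n] a = b) := by
  induction n generalizing a with
  | zero =>
    show Measurable (fun _ => a = b)
    exact measurable_const
  | succ n ih =>
    have h1 : (fun ω => (S.nx (z ω) (t ω))^[n + 1] a = b) =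
        fun ω => ∃ c, S.nx (z ω) (t ω) a = c ∧ (S.nx (z ω) (t ω))^[n] c = b := by
      funext ω
      rw [Function.iterate_succ_apply]
      simp
    rw [h1]
    apply Measurable.exists
    intro c
    exact (meas_nx hz ht a c).and (ih c)

include hz ht in
theorem meas_nx_prop (a : V × V) (p : V × V → Prop) :
    Measurable (fun ω => p (S.nx (z ω) (t ω) a)) := by
  have h1 : (fun ω => p (S.nx (z ω) (t ω) a)) =
      fun ω => ∃ c, S.nx (z ω) (t ω) a = c ∧ p c := by
    funext ω
    simp
  rw [h1]
  apply Measurable.exists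
  intro c
  exact (meas_nx hz ht a c).and measurable_const

include hz ht in
theorem meas_iter_prop (n : ℕ) (a : V × V) (p : V × V → Prop) :
    Measurable (fun ω => p ((S.nx (z ω) (t ω))^[n] a)) := by
  have h1 : (fun ω => p ((S.nx (z ω) (t ω))^[n] a)) =
      fun ω => ∃ c, (S.nx (z ω) (t ω))^[n] a = c ∧ p c := by
    funext ω
    simp
  rw [h1]
  apply Measurable.exists
  intro c
  exact (meas_iter hz ht n a c).and measurable_const

include hz ht in
theorem meas_crit (a : V × V) : Measurable (fun ω => S.crit (z ω) (t ω) a) := by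
  unfold crit
  apply Measurable.or measurable_const
  exact (measurable_const.and (meas_nx_prop hz ht a (fun b => ¬ S.isU b))).or
    (measurable_const.and (meas_nx_prop hz ht a.swap (fun b => ¬ S.isU b)))

include hz ht in
theorem meas_core (a b : V × V) : Measurable (fun ω => S.core (z ω) (t ω) a b) := by
  unfold core so
  apply measurable_const.and
  apply Measurable.and _ (meas_crit hz ht b)
  apply Measurable.exists
  intro n
  exact (meas_iter hz ht n a b).or (meas_iter hz ht n b a)

include hz in
omit [Countable V] in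
theorem meas_klt (a b : V × V) : Measurable (fun ω => klt (z ω) a b) := by
  unfold klt
  apply Measurable.or
  · exact measurableSet_setOfPred.mp (measurableSet_lt (hz _) (hz _))
  · apply Measurable.and
    · exact measurableSet_setOfPred.mp (measurableSet_eq_fun (hz _) (hz _))
    · exact measurableSet_setOfPred.mp (measurableSet_lt (hz _) (hz _))

include hz ht in
theorem meas_ori (a : V × V) : Measurable (fun ω => S.ori (z ω) (t ω) a) := by
  unfold ori
  apply measurable_const.and
  apply Measurable.or
  · apply Measurable.and _ measurable_const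
    apply Measurable.not
    apply Measurable.exists
    intro b
    exact meas_core hz ht a b
  · apply Measurable.exists
    intro b
    apply (meas_core hz ht a b).and
    apply Measurable.forall
    intro c
    exact (meas_core hz ht a.swap c).imp (meas_klt hz b c)

include hz in
theorem meas_inj : Measurable (fun ω => Function.Injective (z ω)) := by
  unfold Function.Injective
  apply Measurable.forall
  intro x
  apply Measurable.forall
  intro y
  exact (measurableSet_setOfPred.mp (measurableSet_eq_fun (hz x) (hz y))).imp measurable_const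

end meas

end Sys

end Pool.Agent.FIIDBO
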