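import Mathlib

/-!
# MP_767f1c_pr: orbits of vertex stabilisers, up and down neighbours in a nonunimodular graph
-/

set_option autoImplicit false

namespace Pool.Agent.FIIDBO

open Set MulAction

variable {V : Type} (G : SimpleGraph V)

/-- the orbit of `y` under the stabiliser of `x` in the automorphism group of `G` -/
def orb (x y : V) : Set V := {z | ∃ φ : G ≃g G, φ x = x ∧ φ y = z}

theorem orb_relIndex (x y : V) :
    (stabilizer (G ≃g G) y).relIndex (stabilizer (G ≃g G) x) = (orb G x y).ncard := by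
  have h1 : (stabilizer (G ≃g G) y).subgroupOf (stabilizer (G ≃g G) x) =
      stabilizer (stabilizer (G ≃g G) x) y := by
    ext φ
    simp only [Subgroup.mem_subgroupOf, mem_stabilizer_iff]
    rfl
  have h2 : orbit (stabilizer (G ≃g G) x) y = orb G x y := by
    ext z
    constructor
    · rintro ⟨φ, hφ⟩
      exact ⟨φ.1, φ.2, hφ⟩
    · rintro ⟨φ, h, h'⟩
      exact ⟨⟨φ, h⟩, h'⟩
  rw [Subgroup.relIndex, h1, index_stabilizer, h2]

/-- the symmetric relation: finite and equal indices -/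
def Bal (x y : V) : Prop :=
  (stabilizer (G ≃g G) y).relIndex (stabilizer (G ≃g G) x) ≠ 0 ∧
  (stabilizer (G ≃g G) x).relIndex (stabilizer (G ≃g G) y) ≠ 0 ∧
  (stabilizer (G ≃g G) y).relIndex (stabilizer (G ≃g G) x) =
    (stabilizer (G ≃g G) x).relIndex (stabilizer (G ≃g G) y)

theorem Bal.refl (x : V) : Bal G x x := by
  refine ⟨?_, ?_, rfl⟩ <;> simp

theorem Bal.trans {x y z : V} (h1 : Bal G x y) (h2 : Bal G y z) : Bal G x z := by
  obtain ⟨a1, a2, a3⟩ := h1
  obtain ⟨b1, b2, b3⟩ := h2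
  have c1 : (stabilizer (G ≃g G) z).relIndex (stabilizer (G ≃g G) x) ≠ 0 :=
    Subgroup.relIndex_ne_zero_trans b1 a1
  have c2 : (stabilizer (G ≃g G) x).relIndex (stabilizer (G ≃g G) z) ≠ 0 :=
    Subgroup.relIndex_ne_zero_trans a2 b2
  refine ⟨c1, c2, ?_⟩
  set X := stabilizer (G ≃g G) x
  set Y := stabilizer (G ≃g G) y
  set Z := stabilizer (G ≃g G) z
  -- indices of the triple intersection
  have e1 : Z.relIndex (Y ⊓ X) * Y.relIndex X = (Z ⊓ Y).relIndex X :=
    Subgroup.relIndex_inf_mul_relIndex Z Y X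
  have e2 : Z.relIndex (X ⊓ Y) * X.relIndex Y = (Z ⊓ X).relIndex Y :=
    Subgroup.relIndex_inf_mul_relIndex Z X Y
  have e3 : X.relIndex (Z ⊓ Y) * Z.relIndex Y = (X ⊓ Z).relIndex Y :=
    Subgroup.relIndex_inf_mul_relIndex X Z Y
  have e4 : X.relIndex (Y ⊓ Z) * Y.relIndex Z = (X ⊓ Y).relIndex Z :=
    Subgroup.relIndex_inf_mul_relIndex X Y Z
  have e5 : Y.relIndex (Z ⊓ X) * Z.relIndex X = (Y ⊓ Z).relIndex X :=
    Subgroup.relIndex_inf_mul_relIndex Y Z X
  have e6 : Y.relIndex (X ⊓ Z) * X.relIndex Z = (Y ⊓ X).relIndex Z :=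
    Subgroup.relIndex_inf_mul_relIndex Y X Z
  rw [inf_comm Y X] at e1
  rw [inf_comm X Z] at e3
  rw [inf_comm Z Y] at e3
  rw [inf_comm Z X] at e5
  rw [inf_comm Y X] at e6
  rw [inf_comm Z Y] at e1
  rw [inf_comm Z X] at e2 e3
  -- [X : XYZ] = [Y : XYZ] = [Z : XYZ]
  have f1 : (Y ⊓ Z).relIndex X = (X ⊓ Z).relIndex Y := by
    rw [← e1, ← e2, a3]
  have f2 : (X ⊓ Z).relIndex Y = (X ⊓ Y).relIndex Z := by
    rw [← e3, ← e4, b3]
  have f3 : Y.relIndex (X ⊓ Z) * Z.relIndex X = Y.relIndex (X ⊓ Z) * X.relIndex Z := by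
    rw [e5, e6, f1, f2]
  have hne : Y.relIndex (X ⊓ Z) ≠ 0 := by
    intro h0
    have : (Y ⊓ Z).relIndex X = 0 := by rw [← e5, h0, zero_mul]
    exact Subgroup.relIndex_inf_ne_zero a1 c1 this
  exact Nat.eq_of_mul_eq_mul_left (Nat.pos_of_ne_zero hne) f3

variable {G}

/-- in a connected graph, if all adjacent pairs are balanced then all pairs are -/
theorem exists_adj_unbalanced [G.LocallyFinite] (hconn : G.Connected)
    (h : ∃ x y, (orb G x y).ncard ≠ (orb G y x).ncard) :
    ∃ x y, G.Adj x y ∧ (orb G x y).ncard ≠ (orb G y x).ncard := by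
  by_contra hcon
  push Not at hcon
  obtain ⟨x, y, hxy⟩ := h
  apply hxy
  have key : ∀ x y, G.Adj x y → Bal G x y := by
    intro x y hadj
    have hfin : ∀ x y, G.Adj x y → (orb G x y).ncard ≠ 0 := by
      intro x y hadj
      have hsub : orb G x y ⊆ (G.neighborFinset x : Set V) := by
        rintro z ⟨φ, h1, rfl⟩
        rw [Finset.mem_coe, SimpleGraph.mem_neighborFinset]
        rw [← h1]
        simpa [h1] using (φ.map_adj_iff (v := x) (w := y)).mpr hadj
      have hf : (orb G x y).Finite := (Finset.finite_toSet _).subset hsub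
      exact ((Set.ncard_pos hf).mpr ⟨y, RelIso.refl _, rfl, rfl⟩).ne'
    refine ⟨?_, ?_, ?_⟩
    · rw [orb_relIndex]; exact hfin x y hadj
    · rw [orb_relIndex]; exact hfin y x hadj.symm
    · rw [orb_relIndex, orb_relIndex]; exact hcon x y hadj
  have all : ∀ x y, Bal G x y := by
    intro x y
    obtain ⟨w⟩ := hconn.preconnected x y
    induction w with
    | nil => exact Bal.refl G _
    | cons hadj _ ih => exact (key _ _ hadj).trans G ih
  have := (all x y).2.2
  rwa [orb_relIndex, orb_relIndex] at this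

/-- `x` is a down neighbour of `y` -/
def dn (G : SimpleGraph V) (y x : V) : Prop := (orb G x y).ncard < (orb G y x).ncard

theorem dn_asymm {x y : V} (h : dn G x y) : ¬ dn G y x := by
  unfold dn at *
  omega

theorem orb_map (φ : G ≃g G) (x y : V) : (orb G (φ x) (φ y)) = φ '' (orb G x y) := by
  ext z
  constructor
  · rintro ⟨ψ, h1, h2⟩
    refine ⟨φ.symm z, ⟨(φ.trans ψ).trans φ.symm, ?_, ?_⟩, ?_⟩
    · simp only [RelIso.trans_apply]
      rw [h1]; simp
    · simp only [RelIso.trans_apply]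
      rw [h2]
    · simp
  · rintro ⟨w, ⟨ψ, h1, h2⟩, rfl⟩
    refine ⟨(φ.symm.trans ψ).trans φ, ?_, ?_⟩
    · simp [h1]
    · simp [h2]

theorem orb_map_ncard (φ : G ≃g G) (x y : V) :
    (orb G (φ x) (φ y)).ncard = (orb G x y).ncard := by
  rw [orb_map, Set.ncard_image_of_injective _ φ.injective]

theorem dn_map (φ : G ≃g G) (x y : V) : dn G (φ x) (φ y) ↔ dn G x y := by
  rw [dn, dn, orb_map_ncard, orb_map_ncard]

/-- class of a pair under the diagonal action -/
def cls (G : SimpleGraph V) (p : V × V) : Set (V × V) :=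
  {q | ∃ φ : G ≃g G, φ p.1 = q.1 ∧ φ p.2 = q.2}

theorem mem_cls_self (p : V × V) : p ∈ cls G p := ⟨RelIso.refl _, rfl, rfl⟩

theorem cls_eq {p q : V × V} (h : q ∈ cls G p) : cls G q = cls G p := by
  obtain ⟨φ, h1, h2⟩ := h
  ext r
  constructor
  · rintro ⟨ψ, g1, g2⟩
    exact ⟨φ.trans ψ, by simp [h1, g1], by simp [h2, g2]⟩
  · rintro ⟨ψ, g1, g2⟩
    refine ⟨φ.symm.trans ψ, ?_, ?_⟩
    · rw [← h1]; simp [g1]
    · rw [← h2]; simp [g2]

theorem sec_cls (y x : V) : {x' | (y, x') ∈ cls G (y, x)} = orb G y x := rfl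

theorem sec_cls' (htr : ∀ x y : V, ∃ φ : G ≃g G, φ x = y) (y x : V) :
    {w | (w, y) ∈ cls G (y, x)}.ncard = (orb G x y).ncard := by
  obtain ⟨φ, hφ⟩ := htr x y
  have : {w | (w, y) ∈ cls G (y, x)} = φ '' (orb G x y) := by
    ext w
    constructor
    · rintro ⟨ψ, h1, h2⟩
      simp only at h1 h2
      refine ⟨φ.symm w, ⟨ψ.trans φ.symm, ?_, ?_⟩, ?_⟩
      · simp only [RelIso.trans_apply]
        rw [h2, ← hφ]; simp
      · simp only [RelIso.trans_apply]
        rw [h1]
      · simp
    · rintro ⟨z, ⟨ψ, h1, h2⟩, rfl⟩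
      exact ⟨ψ.trans φ, by simp [h2], by simp [h1, hφ]⟩
  rw [this, Set.ncard_image_of_injective _ φ.injective]

theorem card_filter_cls [G.LocallyFinite] (y : V)
    (f : Set (V × V) → Prop) :
    by classical exact ((G.neighborFinset y).filter (fun x => f (cls G (y, x)))).card =
      ∑ κ ∈ ((G.neighborFinset y).image (fun x => cls G (y, x))).filter f,
        {x | (y, x) ∈ κ}.ncard := by
  classical
  rw [Finset.card_eq_sum_card_fiberwise (f := fun x => cls G (y, x))
    (t := ((G.neighborFinset y).image (fun x => cls G (y, x))).filter f)]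
  · apply Finset.sum_congr rfl
    intro κ hκ
    rw [Finset.mem_filter, Finset.mem_image] at hκ
    obtain ⟨⟨x0, hx0, rfl⟩, hf⟩ := hκ
    rw [← Set.ncard_coe_finset]
    congr 1
    ext x
    simp only [Finset.coe_filter, Finset.mem_filter, SimpleGraph.mem_neighborFinset,
      Set.mem_setOf_eq]
    constructor
    · rintro ⟨-, h⟩
      rw [← h]
      exact mem_cls_self _
    · intro h
      have h2 := cls_eq h
      refine ⟨⟨?_, ?_⟩, h2⟩
      · obtain ⟨φ, h3, h4⟩ := h
        simp only at h3 h4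
        rw [SimpleGraph.mem_neighborFinset] at hx0
        rw [← h3, ← h4]
        exact φ.map_adj_iff.mpr hx0
      · rw [h2]; exact hf
  · intro x hx
    rw [Finset.mem_coe, Finset.mem_filter] at hx
    rw [Finset.mem_coe, Finset.mem_filter, Finset.mem_image]
    exact ⟨⟨x, hx.1, rfl⟩, hx.2⟩

open Classical in
/-- there are more down neighbours than up neighbours -/
theorem card_up_lt_card_down [G.LocallyFinite] (htr : ∀ x y : V, ∃ φ : G ≃g G, φ x = y)
    (h : ∃ x y, G.Adj x y ∧ (orb G x y).ncard ≠ (orb G y x).ncard) (y : V) :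
    ((G.neighborFinset y).filter (fun x => dn G x y)).card <
      ((G.neighborFinset y).filter (fun x => dn G y x)).card := by
  set t := (G.neighborFinset y).image (fun x => cls G (y, x)) with ht
  set n : Set (V × V) → ℕ := fun κ => {x | (y, x) ∈ κ}.ncard with hn
  set m : Set (V × V) → ℕ := fun κ => {x | (x, y) ∈ κ}.ncard with hm
  have hnm : ∀ κ, m κ = n (Prod.swap ⁻¹' κ) := fun κ => rfl
  have hmn : ∀ κ, n κ = m (Prod.swap ⁻¹' κ) := fun κ => rfl
  have hswap : ∀ κ : Set (V × V), Prod.swap ⁻¹' (Prod.swap ⁻¹' κ) = κ := fun κ => by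
    ext ⟨a, b⟩; rfl
  have hclosed : ∀ κ ∈ t, (Prod.swap ⁻¹' κ : Set (V × V)) ∈ t := by
    intro κ hκ
    rw [ht, Finset.mem_image] at hκ ⊢
    obtain ⟨x, hx, rfl⟩ := hκ
    obtain ⟨φ, hφ⟩ := htr x y
    rw [SimpleGraph.mem_neighborFinset] at hx
    refine ⟨φ y, ?_, ?_⟩
    · rw [SimpleGraph.mem_neighborFinset]
      have := φ.map_adj_iff.mpr hx.symm
      rwa [hφ] at this
    · have h1 : ((y, φ y) : V × V) ∈ cls G (x, y) := ⟨φ, hφ, rfl⟩
      rw [cls_eq h1]
      ext ⟨a, b⟩
      constructor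
      · rintro ⟨ψ, g1, g2⟩
        exact ⟨ψ, g2, g1⟩
      · rintro ⟨ψ, g1, g2⟩
        exact ⟨ψ, g2, g1⟩
  have e1 : (G.neighborFinset y).filter (fun x => dn G x y) =
      (G.neighborFinset y).filter (fun x => n (cls G (y, x)) < m (cls G (y, x))) := by
    apply Finset.filter_congr
    intro x _
    rw [hn, hm]
    simp only [sec_cls' htr]
    rfl
  have e2 : (G.neighborFinset y).filter (fun x => dn G y x) =
      (G.neighborFinset y).filter (fun x => m (cls G (y, x)) < n (cls G (y, x))) := by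
    apply Finset.filter_congr
    intro x _
    rw [hn, hm]
    simp only [sec_cls' htr]
    rfl
  have c1 := card_filter_cls (G := G) y (fun κ => n κ < m κ)
  have c2 := card_filter_cls (G := G) y (fun κ => m κ < n κ)
  have c1' : ((G.neighborFinset y).filter (fun x => n (cls G (y, x)) < m (cls G (y, x)))).card =
    ∑ κ ∈ t.filter (fun κ => n κ < m κ), n κ := by convert c1
  have c2' : ((G.neighborFinset y).filter (fun x => m (cls G (y, x)) < n (cls G (y, x)))).card =
    ∑ κ ∈ t.filter (fun κ => m κ < n κ), n κ := by convert c2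
  rw [e1, e2, c1', c2']
  have c3 : ∑ κ ∈ t.filter (fun κ => n κ < m κ), n κ = ∑ κ ∈ t.filter (fun κ => m κ < n κ), m κ := by
    apply Finset.sum_nbij' (fun κ => Prod.swap ⁻¹' κ) (fun κ => Prod.swap ⁻¹' κ)
    · intro κ hκ
      rw [Finset.mem_filter] at hκ ⊢
      exact ⟨hclosed κ hκ.1, hκ.2⟩
    · intro κ hκ
      rw [Finset.mem_filter] at hκ ⊢
      exact ⟨hclosed κ hκ.1, hκ.2⟩
    · intro κ _; exact hswap κ
    · intro κ _; exact hswap κ
    · intro κ _; exact hmn κ
  rw [c3]
  apply Finset.sum_lt_sum_of_nonempty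
  · -- some class is down
    obtain ⟨a, b, hab, hne⟩ := h
    have key : ∀ a b, G.Adj a b → (orb G b a).ncard < (orb G a b).ncard →
        (t.filter (fun κ => m κ < n κ)).Nonempty := by
      intro a b hab hlt
      obtain ⟨φ, hφ⟩ := htr a y
      refine ⟨cls G (y, φ b), ?_⟩
      rw [Finset.mem_filter, ht, Finset.mem_image]
      refine ⟨⟨φ b, ?_, rfl⟩, ?_⟩
      · rw [SimpleGraph.mem_neighborFinset, ← hφ]
        exact φ.map_adj_iff.mpr hab
      · show {x | (x, y) ∈ cls G (y, φ b)}.ncard < {x | (y, x) ∈ cls G (y, φ b)}.ncard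
        rw [sec_cls' htr, sec_cls, ← hφ, orb_map_ncard, orb_map_ncard]
        exact hlt
    rcases lt_or_gt_of_ne hne with h1 | h1
    · exact key b a hab.symm h1
    · exact key a b hab h1
  · intro κ hκ
    exact (Finset.mem_filter.mp hκ).2

open Classical in
/-- invariance of the number of down neighbours -/
theorem card_down_map [G.LocallyFinite] (φ : G ≃g G) (y : V) :
    ((G.neighborFinset (φ y)).filter (fun x => dn G (φ y) x)).card =
      ((G.neighborFinset y).filter (fun x => dn G y x)).card := by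
  symm
  apply Finset.card_nbij' (fun x => φ x) (fun x => φ.symm x)
  · intro x hx
    rw [Finset.mem_coe, Finset.mem_filter, SimpleGraph.mem_neighborFinset] at hx ⊢
    exact ⟨φ.map_adj_iff.mpr hx.1, (dn_map φ _ _).mpr hx.2⟩
  · intro x hx
    rw [Finset.mem_coe, Finset.mem_filter, SimpleGraph.mem_neighborFinset] at hx ⊢
    constructor
    · rw [← φ.map_adj_iff]; simpa using hx.1
    · rw [← dn_map φ]; simpa using hx.2
  · intro x _; simp
  · intro x _; simp

open Classical in
/-- invariance of the number of up neighbours -/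
theorem card_up_map [G.LocallyFinite] (φ : G ≃g G) (y : V) :
    ((G.neighborFinset (φ y)).filter (fun x => dn G x (φ y))).card =
      ((G.neighborFinset y).filter (fun x => dn G x y)).card := by
  symm
  apply Finset.card_nbij' (fun x => φ x) (fun x => φ.symm x)
  · intro x hx
    rw [Finset.mem_coe, Finset.mem_filter, SimpleGraph.mem_neighborFinset] at hx ⊢
    exact ⟨φ.map_adj_iff.mpr hx.1, (dn_map φ _ _).mpr hx.2⟩
  · intro x hx
    rw [Finset.mem_coe, Finset.mem_filter, SimpleGraph.mem_neighborFinset] at hx ⊢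
    constructor
    · rw [← φ.map_adj_iff]; simpa using hx.1
    · rw [← dn_map φ]; simpa using hx.2
  · intro x _; simp
  · intro x _; simp

end Pool.Agent.FIIDBO
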