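import Pool.Agent.Lib.MP_767f1c_pr.Mg.G001
import Pool.Agent.Lib.MP_767f1c_pr.Orb

/-!
# MP_767f1c_pr: the factor of iid
-/

set_option autoImplicit false

namespace Pool.Agent.FIIDBO

open Set MeasureTheory

variable {V : Type}

open Classical in
/-- a nonunimodular transitive `2d`-regular graph as a system -/
theorem exists_sys (G : SimpleGraph V) [G.LocallyFinite] (d : ℕ)
    (hconn : G.Connected) (hreg : ∀ x, G.degree x = 2 * d)
    (htr : ∀ x y : V, ∃ φ : G ≃g G, φ x = y)
    (hnon : ∃ x y : V, (orb G x y).ncard ≠ (orb G y x).ncard) :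
    ∃ S : Sys V, S.G = G ∧ S.d = d ∧ ∀ (φ : S.G ≃g S.G) (x y : V),
      S.dn (φ x) (φ y) ↔ S.dn x y := by
  have hadj := exists_adj_unbalanced hconn hnon
  obtain ⟨x0, _, _⟩ := hnon
  refine ⟨{
    G := G
    dn := dn G
    d := d
    u := ((G.neighborFinset x0).filter (fun x => dn G x x0)).card
    v := ((G.neighborFinset x0).filter (fun x => dn G x0 x)).card
    asymm := fun x y h => dn_asymm h
    deg := hreg
    up_card := ?_
    down_card := ?_
    huv := ?_
    ne := ⟨x0⟩ }, rfl, rfl, fun φ x y => dn_map φ x y⟩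
  · intro y
    obtain ⟨φ, rfl⟩ := htr x0 y
    have := card_up_map φ x0
    convert this
  · intro y
    obtain ⟨φ, rfl⟩ := htr x0 y
    have := card_down_map φ x0
    convert this
  · exact card_up_lt_card_down htr hadj x0

open Classical in
/-- the factor map -/
noncomputable def Phi (S : Sys V) (ω : V → unitInterval) (x y : V) : Bool :=
  decide (S.Gd (cLbl S.M S.M_pos) (fun v => toC (ω v)) ∧
    S.ori (fun v => (cLbl S.M S.M_pos).z0 (toC (ω v))) (fun v => (cLbl S.M S.M_pos).t0 (toC (ω v)))
      (x, y))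

theorem Phi_meas [Countable V] (S : Sys V) : Measurable (Phi S) := by
  classical
  have hz : ∀ v : V, Measurable (fun ω : V → unitInterval => (cLbl S.M S.M_pos).z0 (toC (ω v))) :=
    fun v => ((cLbl S.M S.M_pos).z0_meas.comp toC_mp.measurable).comp (measurable_pi_apply v)
  have ht : ∀ v : V, Measurable (fun ω : V → unitInterval => (cLbl S.M S.M_pos).t0 (toC (ω v))) :=
    fun v => ((cLbl S.M S.M_pos).t0_meas.comp toC_mp.measurable).comp (measurable_pi_apply v)
  apply measurable_pi_lambda
  intro x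
  apply measurable_pi_lambda
  intro y
  apply measurable_to_bool
  have h1 : (fun ω => Phi S ω x y) ⁻¹' {true} = {ω | S.Gd (cLbl S.M S.M_pos) (fun v => toC (ω v)) ∧
    S.ori (fun v => (cLbl S.M S.M_pos).z0 (toC (ω v))) (fun v => (cLbl S.M S.M_pos).t0 (toC (ω v)))
      (x, y)} := by
    ext ω
    simp [Phi]
  rw [h1]
  apply measurableSet_setOfPred.mpr
  exact (Sys.meas_inj (z := fun (ω : V → unitInterval) v => (cLbl S.M S.M_pos).z0 (toC (ω v)))
    hz).and (Sys.meas_ori hz ht (x, y))

theorem Phi_equi (S : Sys V) (hφ : ∀ (φ : S.G ≃g S.G) (x y : V), S.dn (φ x) (φ y) ↔ S.dn x y)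
    (φ : S.G ≃g S.G) (ω : V → unitInterval) (x y : V) :
    Phi S (fun v => ω (φ v)) x y = Phi S ω (φ x) (φ y) := by
  classical
  unfold Phi
  have h1 := Sys.ori_map φ (hφ φ) (fun v => (cLbl S.M S.M_pos).z0 (toC (ω v)))
    (fun v => (cLbl S.M S.M_pos).t0 (toC (ω v))) (x, y)
  have h2 : S.Gd (cLbl S.M S.M_pos) (fun v => toC (ω (φ v))) ↔
      S.Gd (cLbl S.M S.M_pos) (fun v => toC (ω v)) := by
    unfold Sys.Gd
    constructor
    · intro h
      have h3 := h.comp φ.symm.injective
      convert h3 using 1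
      funext v
      simp
    · intro h
      exact h.comp φ.injective
  have h3 : (Prod.map φ φ (x, y) : V × V) = (φ x, φ y) := rfl
  rw [h3] at h1
  simp only [h1, h2]

theorem Phi_ae [Countable V] (S : Sys V) :
    ∀ᵐ ω ∂(Measure.infinitePi (fun _ : V => (volume : Measure unitInterval))),
      S.Gd (cLbl S.M S.M_pos) (fun v => toC (ω v)) ∧
      S.NoInf (fun v => (cLbl S.M S.M_pos).z0 (toC (ω v)))
        (fun v => (cLbl S.M S.M_pos).t0 (toC (ω v))) := by
  have h1 := S.ae_noInf (cLbl S.M S.M_pos)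
  have h2 := Measure.infinitePi_map_pi (μ := fun _ : V => (volume : Measure unitInterval))
    (f := fun _ => toC) (fun _ => toC_mp.measurable)
  have h3 : MeasurePreserving (fun (ω : V → unitInterval) v => toC (ω v))
      (Measure.infinitePi (fun _ : V => (volume : Measure unitInterval)))
      (S.P (cLbl S.M S.M_pos)) := by
    refine ⟨?_, ?_⟩
    · apply measurable_pi_lambda
      intro v
      exact toC_mp.measurable.comp (measurable_pi_apply v)
    · rw [h2]
      unfold Sys.P
      congr 1
      funext _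
      exact toC_mp.map_eq
  exact h3.quasiMeasurePreserving.ae h1

end Pool.Agent.FIIDBO
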