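import Pool.Agent.Lib.MP_767f1c_pr.Main

/-!
# Library form: nonunimodular transitive graphs of degree `2d` have factor-of-iid balanced
orientations
-/

set_option autoImplicit false

namespace Pool.Agent.FIIDBO.Nonuni

open MeasureTheory Pool.Agent.FIIDBO

/-- `O` (with `O x y = true` meaning that the edge `xy` is oriented from `x` to `y`) is a balanced
orientation of `G`: exactly the edges are oriented, every edge in exactly one of its two
directions, and every vertex has out-degree `d` and in-degree `d`. -/
structure IsBalancedOrientation {V : Type} (G : SimpleGraph V) (d : ℕ) (O : V → V → Bool) :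
    Prop where
  adj : ∀ x y, O x y = true → G.Adj x y
  one : ∀ x y, G.Adj x y → (O x y = true ↔ O y x = false)
  out : ∀ x, {y | O x y = true}.ncard = d
  inn : ∀ x, {y | O y x = true}.ncard = d

/-- `G` has a factor-of-iid balanced orientation: a measurable map `Φ` from labellings of the
vertices by points of `[0,1]` to orientations which commutes with every automorphism of `G` and
is a balanced orientation almost surely for independent uniform labels. -/
def HasFIIDBalancedOrientation {V : Type} (G : SimpleGraph V) (d : ℕ) : Prop :=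
  ∃ Φ : (V → unitInterval) → (V → V → Bool), Measurable Φ ∧
    (∀ (φ : G ≃g G) (ω : V → unitInterval) (x y : V),
      Φ (fun v => ω (φ v)) x y = Φ ω (φ x) (φ y)) ∧
    ∀ᵐ ω ∂(Measure.infinitePi (fun _ : V => (volume : Measure unitInterval))),
      IsBalancedOrientation G d (Φ ω)

/-- Every connected, locally finite, vertex transitive graph of degree `2d` which is not
unimodular (for some vertices `x, y` the orbit of `y` under the stabiliser of `x` and the orbit of
`x` under the stabiliser of `y` have different sizes) has a factor-of-iid balanced orientation. -/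
theorem main {V : Type} [Countable V] (G : SimpleGraph V) [G.LocallyFinite] (d : ℕ)
    (hconn : G.Connected) (hreg : ∀ x, G.degree x = 2 * d)
    (htr : ∀ x y : V, ∃ φ : G ≃g G, φ x = y)
    (hnon : ∃ x y : V, (orb G x y).ncard ≠ (orb G y x).ncard) :
    HasFIIDBalancedOrientation G d := by
  classical
  obtain ⟨S, rfl, rfl, hφ⟩ := exists_sys G d hconn hreg htr hnon
  refine ⟨Phi S, Phi_meas S, fun φ ω x y => Phi_equi S hφ φ ω x y, ?_⟩
  filter_upwards [Phi_ae S] with ω hω
  obtain ⟨hg, hn⟩ := hω
  have ht : ∀ v : V, (cLbl S.M S.M_pos).t0 (toC (ω v)) < S.M := fun v =>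
    (cLbl S.M S.M_pos).t0_lt _
  have hPhi : ∀ x y, Phi S ω x y = true ↔
      S.ori (fun v => (cLbl S.M S.M_pos).z0 (toC (ω v)))
        (fun v => (cLbl S.M S.M_pos).t0 (toC (ω v))) (x, y) := by
    intro x y
    unfold Phi
    rw [decide_eq_true_iff]
    exact ⟨fun h => h.2, fun h => ⟨hg, h⟩⟩
  have hbal := Sys.ori_balanced hg ht hn
  have hadj : ∀ x y, Phi S ω x y = true → S.G.Adj x y := fun x y h => ((hPhi x y).mp h).1
  refine ⟨hadj, ?_, ?_, ?_⟩
  · intro x y hxy
    have h1 := Sys.ori_swap hg ht hn ⟨(x, y), hxy⟩
    rw [hPhi, h1]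
    show ¬ S.ori _ _ (y, x) ↔ _
    rw [← hPhi, Bool.not_eq_true]
  · intro x
    have h1 := (hbal x).1
    rw [← Set.ncard_coe_finset] at h1
    rw [← h1]
    congr 1
    ext y
    rw [Finset.mem_coe, Finset.mem_filter, SimpleGraph.mem_neighborFinset, ← hPhi]
    exact ⟨fun h => ⟨hadj x y h, h⟩, fun h => h.2⟩
  · intro x
    have h1 := (hbal x).2
    rw [← Set.ncard_coe_finset] at h1
    rw [← h1]
    congr 1
    ext y
    rw [Finset.mem_coe, Finset.mem_filter, SimpleGraph.mem_neighborFinset, ← hPhi]
    exact ⟨fun h => ⟨(hadj y x h).symm, h⟩, fun h => h.2⟩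

end Pool.Agent.FIIDBO.Nonuni
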