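import Pool.Agent.Lib.MP_767f1c_pr.Equi
import Pool.Agent.Lib.MP_767f1c_pr.Det2

/-!
# MP_767f1c_pr: almost surely there is no infinite horizontal path
-/

set_option autoImplicit false

namespace Pool.Agent.FIIDBO

open Set MeasureTheory
open scoped ENNReal

/-- a label space: `z0` is a nonatomic label, `t0` a label in `{0,…,M-1}`, and `T` preserves the
measure and `z0` and rotates `t0` -/
structure Lbl (M : ℕ) (L : Type) [MeasurableSpace L] where
  ν : Measure L
  [prob : IsProbabilityMeasure ν]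
  T : L → L
  z0 : L → ℝ
  t0 : L → ℕ
  T_mp : MeasurePreserving T ν ν
  z0_meas : Measurable z0
  t0_meas : Measurable t0
  t0_lt : ∀ l, t0 l < M
  z0_T : ∀ l, z0 (T l) = z0 l
  t0_T : ∀ l, t0 (T l) = (t0 l + 1) % M
  atom : ∀ c, ν {l | z0 l = c} = 0

attribute [instance] Lbl.prob

/-- rotation lemma -/
theorem rot {Ω : Type} [MeasurableSpace Ω] {μ : Measure Ω} [IsProbabilityMeasure μ] {M : ℕ}
    (hM : 0 < M) {R : Ω → Ω} (hR : MeasurePreserving R μ μ) {A : Set Ω} (hA : MeasurableSet A)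
    (hRA : R ⁻¹' A = A) {σ : Ω → ℕ} (hσ : Measurable σ) (hσM : ∀ ω, σ ω < M)
    (hσR : ∀ ω ∈ A, σ (R ω) = (σ ω + 1) % M) :
    μ (A ∩ {ω | σ ω ≠ 0}) ≤ (((M - 1 : ℕ) : ℝ≥0∞) / (M : ℝ≥0∞)) * μ A := by
  set B : ℕ → Set Ω := fun i => A ∩ {ω | σ ω = i} with hB
  have hBm : ∀ i, MeasurableSet (B i) := fun i => hA.inter (hσ (measurableSet_singleton i))
  have hstep : ∀ i, i + 1 < M → μ (B (i + 1)) = μ (B i) := by
    intro i hi
    rw [← hR.measure_preimage (hBm (i + 1)).nullMeasurableSet]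
    congr 1
    ext ω
    constructor
    · rintro ⟨h1, h2⟩
      have h1' : ω ∈ A := by rw [← hRA]; exact h1
      refine ⟨h1', ?_⟩
      have h3 : σ (R ω) = i + 1 := h2
      rw [hσR ω h1'] at h3
      show σ ω = i
      have h4 := hσM ω
      rcases Nat.lt_or_ge (σ ω + 1) M with h5 | h5
      · rw [Nat.mod_eq_of_lt h5] at h3; omega
      · have h6 : σ ω + 1 = M := by omega
        rw [h6, Nat.mod_self] at h3
        omega
    · rintro ⟨h1, h2⟩
      have h1' : R ω ∈ A := by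
        have : ω ∈ R ⁻¹' A := by rw [hRA]; exact h1
        exact this
      refine ⟨h1', ?_⟩
      show σ (R ω) = i + 1
      have h3 : σ ω = i := h2
      rw [hσR ω h1, h3, Nat.mod_eq_of_lt hi]
  have hall : ∀ i, i < M → μ (B i) = μ (B 0) := by
    intro i
    induction i with
    | zero => intro _; rfl
    | succ i ih => intro hi; rw [hstep i hi, ih (by omega)]
  have hdisj : ∀ s : Finset ℕ, μ (⋃ i ∈ s, B i) = ∑ i ∈ s, μ (B i) := by
    intro s
    apply measure_biUnion_finset _ (fun i _ => hBm i)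
    intro i _ j _ hij
    apply Set.disjoint_left.mpr
    rintro ω ⟨-, h1⟩ ⟨-, h2⟩
    exact hij (h1.symm.trans h2)
  have h1 : μ A = M * μ (B 0) := by
    have : A = ⋃ i ∈ Finset.range M, B i := by
      ext ω
      simp only [Set.mem_iUnion, Finset.mem_range, exists_prop]
      constructor
      · intro h; exact ⟨σ ω, hσM ω, h, rfl⟩
      · rintro ⟨i, -, h, -⟩; exact h
    conv_lhs => rw [this]
    rw [hdisj, Finset.sum_congr rfl (fun i hi => hall i (Finset.mem_range.mp hi))]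
    simp
  have h2 : μ (A ∩ {ω | σ ω ≠ 0}) = ((M - 1 : ℕ) : ℝ≥0∞) * μ (B 0) := by
    have : A ∩ {ω | σ ω ≠ 0} = ⋃ i ∈ (Finset.range M).erase 0, B i := by
      ext ω
      simp only [Set.mem_iUnion, Finset.mem_erase, Finset.mem_range, exists_prop]
      constructor
      · rintro ⟨h, h'⟩; exact ⟨σ ω, ⟨h', hσM ω⟩, h, rfl⟩
      · rintro ⟨i, ⟨h1, -⟩, h, h2⟩
        refine ⟨h, ?_⟩
        have h2' : σ ω = i := h2
        show σ ω ≠ 0
        omega
    rw [this, hdisj, Finset.sum_congr rfl (fun i hi =>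
      hall i (Finset.mem_range.mp (Finset.mem_of_mem_erase hi)))]
    rw [Finset.sum_const, Finset.card_erase_of_mem (Finset.mem_range.mpr hM), Finset.card_range,
      nsmul_eq_mul]
  rw [h2, h1, ← mul_assoc, ENNReal.div_mul_cancel]
  · exact_mod_cast hM.ne'
  · exact ENNReal.natCast_ne_top M

namespace Sys

variable {V : Type} [Countable V] (S : Sys V) {L : Type} [MeasurableSpace L] (Λ : Lbl S.M L)

/-- next dart as a function of the labels -/
noncomputable def N (ω : V → L) : V × V → V × V :=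
  S.nx (fun x => Λ.z0 (ω x)) (fun x => Λ.t0 (ω x))

/-- the product measure -/
noncomputable def P : Measure (V → L) := Measure.infinitePi (fun _ : V => Λ.ν)

instance : IsProbabilityMeasure (S.P Λ) := by unfold P; infer_instance

open Classical in
/-- rotation of the label at `y` -/
noncomputable def Ty (y : V) (ω : V → L) : V → L := fun x => if x = y then Λ.T (ω x) else ω x

omit [Countable V] in
theorem Ty_mp (y : V) : MeasurePreserving (S.Ty Λ y) (S.P Λ) (S.P Λ) := by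
  classical
  have hf : ∀ x : V, Measurable (fun l : L => if x = y then Λ.T l else l) := by
    intro x
    split_ifs
    · exact Λ.T_mp.measurable
    · exact measurable_id
  have h1 := Measure.infinitePi_map_pi (μ := fun _ : V => Λ.ν) hf
  refine ⟨?_, ?_⟩
  · apply measurable_pi_lambda
    intro x
    exact (hf x).comp (measurable_pi_apply x)
  · unfold P
    convert h1 using 2
    · funext ω x
      unfold Ty
      congr
    · funext x
      by_cases h : x = y
      · simp only [h, if_true]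
        exact Λ.T_mp.map_eq.symm
      · simp only [h, if_false]
        exact Measure.map_id.symm

omit [Countable V] in
theorem hzm (x : V) : Measurable (fun ω : V → L => Λ.z0 (ω x)) :=
  Λ.z0_meas.comp (measurable_pi_apply x)

omit [Countable V] in
theorem htm (x : V) : Measurable (fun ω : V → L => Λ.t0 (ω x)) :=
  Λ.t0_meas.comp (measurable_pi_apply x)

/-- good configurations -/
def Gd (ω : V → L) : Prop := Function.Injective (fun x => Λ.z0 (ω x))

theorem ae_good : ∀ᵐ ω ∂(S.P Λ), S.Gd Λ ω := by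
  have h1 : ∀ x y : V, x ≠ y → ∀ᵐ ω ∂(S.P Λ), Λ.z0 (ω x) ≠ Λ.z0 (ω y) := by
    intro x y hxy
    rw [ae_iff]
    have hB : MeasurableSet {p : L × L | Λ.z0 p.1 = Λ.z0 p.2} :=
      measurableSet_eq_fun (Λ.z0_meas.comp measurable_fst) (Λ.z0_meas.comp measurable_snd)
    have h2 : (Λ.ν.prod Λ.ν) {p : L × L | Λ.z0 p.1 = Λ.z0 p.2} = 0 := by
      rw [Measure.measure_prod_null hB]
      apply Filter.Eventually.of_forall
      intro l
      have : Prod.mk l ⁻¹' {p : L × L | Λ.z0 p.1 = Λ.z0 p.2} = {l' | Λ.z0 l' = Λ.z0 l} := by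
        ext l'
        exact eq_comm
      show Λ.ν (Prod.mk l ⁻¹' {p : L × L | Λ.z0 p.1 = Λ.z0 p.2}) = 0
      rw [this]
      exact Λ.atom _
    have h3 := Measure.infinitePi_map_eval_prod (P := fun _ : V => Λ.ν) hxy
    rw [← h3, Measure.map_apply (by fun_prop) hB] at h2
    have h4 : {ω : V → L | ¬ Λ.z0 (ω x) ≠ Λ.z0 (ω y)} =
        (fun ω : V → L => (ω x, ω y)) ⁻¹' {p : L × L | Λ.z0 p.1 = Λ.z0 p.2} := by
      ext ω
      simp
    rw [h4]
    exact h2
  have h2 : ∀ᵐ ω ∂(S.P Λ), ∀ x y : V, x ≠ y → Λ.z0 (ω x) ≠ Λ.z0 (ω y) := by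
    rw [ae_all_iff]
    intro x
    rw [ae_all_iff]
    intro y
    by_cases hxy : x = y
    · exact Filter.Eventually.of_forall fun ω h => absurd hxy h
    · filter_upwards [h1 x y hxy] with ω hω _ using hω
  filter_upwards [h2] with ω hω x y hxy
  by_contra hne
  exact hω x y hne hxy

section run

variable (b : V × V)

open Classical in
/-- heads of the first darts -/
noncomputable def heads (ω : V → L) (k : ℕ) : Finset V :=
  (Finset.range (k + 1)).image (fun j => ((S.N Λ ω)^[j] b).2)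

/-- the run started at `b` is horizontal up to time `k`, when it reaches its `n+1`-st head -/
def F (n k : ℕ) (c : V × V) : Set (V → L) :=
  {ω | S.Gd Λ ω ∧ (∀ j ≤ k, S.isH ((S.N Λ ω)^[j] b)) ∧ (S.N Λ ω)^[k] b = c ∧
    (∀ j < k, ((S.N Λ ω)^[j] b).2 ≠ c.2) ∧ (S.heads Λ b ω k).card = n + 1}

omit [Countable V] in
theorem heads_mono (ω : V → L) {k l : ℕ} (h : k ≤ l) : S.heads Λ b ω k ⊆ S.heads Λ b ω l := by
  classical
  unfold heads
  apply Finset.image_subset_image
  intro j hj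
  rw [Finset.mem_range] at hj ⊢
  omega

omit [Countable V] in
theorem mem_heads (ω : V → L) {j k : ℕ} (h : j ≤ k) :
    ((S.N Λ ω)^[j] b).2 ∈ S.heads Λ b ω k := by
  classical
  unfold heads
  rw [Finset.mem_image]
  exact ⟨j, Finset.mem_range.mpr (by omega), rfl⟩

omit [Countable V] in
open Classical in
theorem heads_succ (ω : V → L) (k : ℕ) : S.heads Λ b ω (k + 1) =
    insert ((S.N Λ ω)^[k + 1] b).2 (S.heads Λ b ω k) := by
  unfold heads
  rw [Finset.range_add_one, Finset.image_insert]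

omit [Countable V] in
theorem card_heads_succ_le (ω : V → L) (k : ℕ) :
    (S.heads Λ b ω (k + 1)).card ≤ (S.heads Λ b ω k).card + 1 := by
  classical
  rw [heads_succ]
  exact Finset.card_insert_le _ _

omit [Countable V] in
theorem card_heads_zero (ω : V → L) : (S.heads Λ b ω 0).card = 1 := by
  classical
  unfold heads
  simp

omit [Countable V] in
/-- first time at which there are `n + 1` heads -/
theorem first_time (ω : V → L) (n : ℕ) (h : ∃ l, n + 1 ≤ (S.heads Λ b ω l).card) :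
    ∃ k, (S.heads Λ b ω k).card = n + 1 ∧
      (∀ j < k, ((S.N Λ ω)^[j] b).2 ≠ ((S.N Λ ω)^[k] b).2) ∧
      ∀ l, n + 1 ≤ (S.heads Λ b ω l).card → k ≤ l := by
  classical
  refine ⟨Nat.find h, ?_, ?_, fun l hl => Nat.find_min' h hl⟩
  · have h1 := Nat.find_spec h
    rcases Nat.eq_zero_or_pos (Nat.find h) with h2 | h2
    · rw [h2] at h1 ⊢
      rw [card_heads_zero] at h1 ⊢
      omega
    · obtain ⟨m, hm⟩ : ∃ m, Nat.find h = m + 1 := ⟨Nat.find h - 1, by omega⟩
      have h3 := Nat.find_min h (m := m) (by omega)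
      rw [hm] at h1 ⊢
      have h4 := S.card_heads_succ_le Λ b ω m
      omega
  · intro j hj heq
    obtain ⟨m, hm⟩ : ∃ m, Nat.find h = m + 1 := ⟨Nat.find h - 1, by omega⟩
    have h1 := Nat.find_spec h
    have h3 := Nat.find_min h (m := m) (by omega)
    rw [hm] at h1 heq
    have h5 : S.heads Λ b ω (m + 1) = S.heads Λ b ω m := by
      rw [heads_succ]
      apply Finset.insert_eq_self.mpr
      rw [← heq]
      exact S.mem_heads Λ b ω (by omega)
    rw [h5] at h1
    exact h3 h1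

theorem meas_F (n k : ℕ) (c : V × V) : MeasurableSet (S.F Λ b n k c) := by
  classical
  apply measurableSet_setOfPred.mpr
  have hz : ∀ x : V, Measurable (fun ω : V → L => Λ.z0 (ω x)) := fun x => S.hzm Λ x
  have ht : ∀ x : V, Measurable (fun ω : V → L => Λ.t0 (ω x)) := fun x => S.htm Λ x
  apply (meas_inj (z := fun (ω : V → L) x => Λ.z0 (ω x)) hz).and
  apply Measurable.and
  · apply Measurable.forall
    intro j
    apply measurable_const.imp
    exact meas_iter_prop hz ht j b (fun a => S.isH a)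
  apply (meas_iter hz ht k b c).and
  apply Measurable.and
  · apply Measurable.forall
    intro j
    apply measurable_const.imp
    exact meas_iter_prop hz ht j b (fun a => a.2 ≠ c.2)
  -- cardinality of the heads
  have h1 : (fun ω : V → L => (S.heads Λ b ω k).card = n + 1) =
      fun ω => ∃ s : Finset V, s.card = n + 1 ∧ ∀ x : V,
        (x ∈ s ↔ ∃ j : ℕ, j ≤ k ∧ ((S.N Λ ω)^[j] b).2 = x) := by
    funext ω
    apply propext
    have key : ∀ s : Finset V, (∀ x : V, (x ∈ s ↔ ∃ j : ℕ, j ≤ k ∧ ((S.N Λ ω)^[j] b).2 = x)) ↔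
        S.heads Λ b ω k = s := by
      intro s
      rw [Finset.ext_iff]
      apply forall_congr'
      intro x
      unfold heads
      simp only [Finset.mem_image, Finset.mem_range, Nat.lt_succ_iff]
      exact ⟨fun h => h.symm, fun h => h.symm⟩
    constructor
    · intro h
      exact ⟨_, h, (key _).mpr rfl⟩
    · rintro ⟨s, hs, h⟩
      rw [(key s).mp h]
      exact hs
  rw [h1]
  apply Measurable.exists
  intro s
  apply measurable_const.and
  apply Measurable.forall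
  intro x
  apply measurable_const.iff
  apply Measurable.exists
  intro j
  apply measurable_const.and
  exact meas_iter_prop hz ht j b (fun a => a.2 = x)

omit [Countable V] in
theorem F_disjoint (n : ℕ) {k l : ℕ} {c c' : V × V} (hne : (k, c) ≠ (l, c')) :
    Disjoint (S.F Λ b n k c) (S.F Λ b n l c') := by
  classical
  have key : ∀ k l : ℕ, k < l → ∀ c c' ω, ω ∈ S.F Λ b n k c → ω ∈ S.F Λ b n l c' → False := by
    rintro k l hkl c c' ω ⟨-, -, -, -, h5⟩ ⟨-, -, g3, g4, g5⟩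
    have h6 : S.heads Λ b ω k ⊂ S.heads Λ b ω l := by
      rw [Finset.ssubset_iff_of_subset (S.heads_mono Λ b ω hkl.le)]
      refine ⟨c'.2, ?_, ?_⟩
      · rw [← g3]; exact S.mem_heads Λ b ω le_rfl
      · intro hmem
        unfold heads at hmem
        rw [Finset.mem_image] at hmem
        obtain ⟨j, hj, hj2⟩ := hmem
        rw [Finset.mem_range] at hj
        exact g4 j (by omega) hj2
    have := Finset.card_lt_card h6
    omega
  apply Set.disjoint_left.mpr
  intro ω h h'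
  rcases lt_trichotomy k l with h1 | h1 | h1
  · exact key k l h1 c c' ω h h'
  · subst h1
    apply hne
    rw [← h.2.2.1, ← h'.2.2.1]
  · exact key l k h1 c' c ω h' h

omit [Countable V] in
/-- the event only depends on the labels `t0` away from the last head -/
theorem F_congr (n k : ℕ) (c : V × V) {ω ω' : V → L} (h1 : ∀ x, Λ.z0 (ω x) = Λ.z0 (ω' x))
    (h2 : ∀ x, x ≠ c.2 → Λ.t0 (ω x) = Λ.t0 (ω' x)) (h : ω ∈ S.F Λ b n k c) :
    ω' ∈ S.F Λ b n k c := by
  classical
  obtain ⟨g1, g2, g3, g4, g5⟩ := h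
  have hz : (fun x => Λ.z0 (ω x)) = fun x => Λ.z0 (ω' x) := funext h1
  have hN : ∀ a : V × V, a.2 ≠ c.2 → S.N Λ ω' a = S.N Λ ω a := by
    intro a ha
    unfold N nx
    congr 1
    have hp : ∀ x', S.isP (fun x => Λ.z0 (ω' x)) (fun x => Λ.t0 (ω' x)) a.2 a.1 x' ↔
        S.isP (fun x => Λ.z0 (ω x)) (fun x => Λ.t0 (ω x)) a.2 a.1 x' := by
      intro x'
      unfold isP
      rw [← hz]
      simp only [h2 a.2 ha]
    have hp' : S.isP (fun x => Λ.z0 (ω' x)) (fun x => Λ.t0 (ω' x)) a.2 a.1 =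
        S.isP (fun x => Λ.z0 (ω x)) (fun x => Λ.t0 (ω x)) a.2 a.1 := by
      funext x'; exact propext (hp x')
    unfold pt
    rw [hp']
  have hit : ∀ j ≤ k, (S.N Λ ω')^[j] b = (S.N Λ ω)^[j] b := by
    intro j
    induction j with
    | zero => intro _; rfl
    | succ j ih =>
      intro hj
      rw [Function.iterate_succ_apply', Function.iterate_succ_apply', ih (by omega)]
      exact hN _ (g4 j (by omega))
  have hheads : S.heads Λ b ω' k = S.heads Λ b ω k := by
    unfold heads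
    apply Finset.image_congr
    intro j hj
    rw [Finset.mem_coe, Finset.mem_range] at hj
    simp only
    rw [hit j (by omega)]
  refine ⟨?_, ?_, ?_, ?_, ?_⟩
  · unfold Gd at g1 ⊢
    rw [← hz]; exact g1
  · intro j hj
    rw [hit j hj]; exact g2 j hj
  · rw [hit k le_rfl]; exact g3
  · intro j hj
    rw [hit j hj.le]; exact g4 j hj
  · rw [hheads]; exact g5

omit [Countable V] in
theorem F_inv (n k : ℕ) (c : V × V) :
    (S.Ty Λ c.2) ⁻¹' (S.F Λ b n k c) = S.F Λ b n k c := by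
  classical
  have hz : ∀ ω x, Λ.z0 (S.Ty Λ c.2 ω x) = Λ.z0 (ω x) := by
    intro ω x
    unfold Ty
    split_ifs
    · exact Λ.z0_T _
    · rfl
  have ht : ∀ ω x, x ≠ c.2 → Λ.t0 (S.Ty Λ c.2 ω x) = Λ.t0 (ω x) := by
    intro ω x hx
    unfold Ty
    rw [if_neg hx]
  ext ω
  constructor
  · intro h
    exact S.F_congr Λ b n k c (hz ω) (ht ω) h
  · intro h
    exact S.F_congr Λ b n k c (fun x => (hz ω x).symm) (fun x hx => (ht ω x hx).symm) h

variable (hb : S.G.Adj b.1 b.2)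

omit [Countable V] in
include hb in
theorem adj_iter (ω : V → L) (hω : S.Gd Λ ω) (k : ℕ) :
    S.G.Adj ((S.N Λ ω)^[k] b).1 ((S.N Λ ω)^[k] b).2 := by
  induction k with
  | zero => exact hb
  | succ k ih =>
    rw [Function.iterate_succ_apply']
    exact adj_nx hω (fun y => Λ.t0_lt _) ih

/-- the conditional probability of a horizontal step from a new head is at most `1 - 1/M` -/
theorem step_bound (n k : ℕ) (c : V × V) (hc : S.G.Adj c.1 c.2) (hcH : S.isH c) :
    (S.P Λ) (S.F Λ b n k c ∩ {ω | S.isH (S.N Λ ω c)}) ≤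
      (((S.M - 1 : ℕ) : ℝ≥0∞) / (S.M : ℝ≥0∞)) * (S.P Λ) (S.F Λ b n k c) := by
  classical
  have hM := S.M_pos
  set s : (V → L) → ℕ := fun ω => S.rk (fun x => Λ.z0 (ω x)) c.2 c.1 - S.u with hs
  set σ : (V → L) → ℕ := fun ω => (Λ.t0 (ω c.2) + (S.M - s ω)) % S.M with hσ
  have hrk : Measurable (fun ω : V → L => S.rk (fun x => Λ.z0 (ω x)) c.2 c.1) :=
    meas_rk (fun x => S.hzm Λ x) _ _
  have hσm : Measurable σ := by
    have h1 : Measurable (fun p : ℕ × ℕ => (p.1 + (S.M - (p.2 - S.u))) % S.M) :=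
      measurable_of_countable _
    exact h1.comp ((S.htm Λ c.2).prodMk hrk)
  -- the rank of `c.1` at `c.2`
  have hrange : ∀ ω : V → L, s ω < S.M ∧ S.u ≤ S.rk (fun x => Λ.z0 (ω x)) c.2 c.1 := by
    intro ω
    have h1 := rk_lt_u (S := S) (z := fun x => Λ.z0 (ω x)) hc.symm
    have h2 := le_rk (S := S) (z := fun x => Λ.z0 (ω x)) hc.symm
    have h3 : ¬ S.rk (fun x => Λ.z0 (ω x)) c.2 c.1 < S.u := fun h => hcH.1 (h1.mp h)
    have h4 : ¬ 2 * S.d - S.v ≤ S.rk (fun x => Λ.z0 (ω x)) c.2 c.1 := fun h => hcH.2 (h2.mp h)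
    have h5 := S.v_le
    have h6 := S.huv
    have h7 : s ω = S.rk (fun x => Λ.z0 (ω x)) c.2 c.1 - S.u := rfl
    unfold M at hM ⊢
    omega
  have h1 := rot (μ := S.P Λ) hM (S.Ty_mp Λ c.2) (S.meas_F Λ b n k c) (S.F_inv Λ b n k c) hσm
    (fun ω => Nat.mod_lt _ hM) (by
      intro ω _
      have e1 : s (S.Ty Λ c.2 ω) = s ω := by
        have : (fun x => Λ.z0 (S.Ty Λ c.2 ω x)) = fun x => Λ.z0 (ω x) := by
          funext x
          unfold Ty
          split_ifs
          · exact Λ.z0_T _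
          · rfl
        rw [hs]
        simp only
        rw [this]
      have e2 : Λ.t0 (S.Ty Λ c.2 ω c.2) = (Λ.t0 (ω c.2) + 1) % S.M := by
        unfold Ty
        rw [if_pos rfl]
        exact Λ.t0_T _
      show (Λ.t0 (S.Ty Λ c.2 ω c.2) + (S.M - s (S.Ty Λ c.2 ω))) % S.M = _
      rw [e1, e2, Nat.mod_add_mod, Nat.mod_add_mod]
      congr 1
      ring)
  refine le_trans (measure_mono ?_) h1
  rintro ω ⟨h2, h3⟩
  refine ⟨h2, ?_⟩
  intro h4
  have h4' : (Λ.t0 (ω c.2) + (S.M - s ω)) % S.M = 0 := h4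
  obtain ⟨g1, g2⟩ := hrange ω
  have g3 := Λ.t0_lt (ω c.2)
  have g4 : Λ.t0 (ω c.2) = s ω := by
    have h5 : s ω ≤ S.M := g1.le
    rcases Nat.lt_or_ge (Λ.t0 (ω c.2)) (s ω) with h6 | h6
    · exfalso
      rw [Nat.mod_eq_of_lt (by omega)] at h4'
      omega
    · have h7 : Λ.t0 (ω c.2) + (S.M - s ω) = (Λ.t0 (ω c.2) - s ω) + S.M := by omega
      rw [h7, Nat.add_mod_right, Nat.mod_eq_of_lt (by omega)] at h4'
      omega
  have g5 : S.rk (fun x => Λ.z0 (ω x)) c.2 c.1 = S.u + Λ.t0 (ω c.2) := by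
    rw [g4]
    show _ = S.u + (S.rk (fun x => Λ.z0 (ω x)) c.2 c.1 - S.u)
    omega
  have g6 := isD_nx_exit h2.1 (fun y => Λ.t0_lt (ω y)) (a := c) hc g5
  exact h3.1 g6

/-- the run reaches its `n+1`-st head -/
def A (n : ℕ) : Set (V → L) := ⋃ p : ℕ × (V × V), S.F Λ b n p.1 p.2

include hb in
theorem A_step (n : ℕ) : (S.P Λ) (S.A Λ b (n + 1)) ≤
    (((S.M - 1 : ℕ) : ℝ≥0∞) / (S.M : ℝ≥0∞)) * (S.P Λ) (S.A Λ b n) := by
  classical
  have hsub : S.A Λ b (n + 1) ⊆ ⋃ p : ℕ × (V × V),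
      (S.F Λ b n p.1 p.2 ∩ {ω | S.isH (S.N Λ ω p.2)}) := by
    intro ω hω
    obtain ⟨⟨l, c'⟩, h1, h2, h3, h4, h5⟩ := Set.mem_iUnion.mp hω
    simp only at h1 h2 h3 h4 h5
    obtain ⟨k, hk1, hk2, hk3⟩ := S.first_time Λ b ω n ⟨l, by omega⟩
    have hkl : k ≤ l := hk3 l (by omega)
    have hkl' : k ≠ l := by
      rintro rfl
      omega
    rw [Set.mem_iUnion]
    refine ⟨(k, (S.N Λ ω)^[k] b), ⟨h1, fun j hj => h2 j (by omega), rfl, hk2, hk1⟩, ?_⟩
    show S.isH (S.N Λ ω ((S.N Λ ω)^[k] b))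
    have h6 := h2 (k + 1) (by omega)
    rwa [Function.iterate_succ_apply'] at h6
  have hpt : ∀ p : ℕ × (V × V), (S.P Λ) (S.F Λ b n p.1 p.2 ∩ {ω | S.isH (S.N Λ ω p.2)}) ≤
      (((S.M - 1 : ℕ) : ℝ≥0∞) / (S.M : ℝ≥0∞)) * (S.P Λ) (S.F Λ b n p.1 p.2) := by
    rintro ⟨k, c⟩
    by_cases hc : S.G.Adj c.1 c.2 ∧ S.isH c
    · exact S.step_bound Λ b n k c hc.1 hc.2
    · have : S.F Λ b n k c = ∅ := by
        rw [Set.eq_empty_iff_forall_notMem]
        rintro ω ⟨h1, h2, h3, -, -⟩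
        apply hc
        rw [← h3]
        exact ⟨S.adj_iter Λ b hb ω h1 k, h2 k le_rfl⟩
      simp only
      rw [this]
      simp
  calc (S.P Λ) (S.A Λ b (n + 1))
      ≤ (S.P Λ) (⋃ p : ℕ × (V × V), (S.F Λ b n p.1 p.2 ∩ {ω | S.isH (S.N Λ ω p.2)})) :=
        measure_mono hsub
    _ ≤ ∑' p : ℕ × (V × V), (S.P Λ) (S.F Λ b n p.1 p.2 ∩ {ω | S.isH (S.N Λ ω p.2)}) :=
        measure_iUnion_le _
    _ ≤ ∑' p : ℕ × (V × V), (((S.M - 1 : ℕ) : ℝ≥0∞) / (S.M : ℝ≥0∞)) *
          (S.P Λ) (S.F Λ b n p.1 p.2) := ENNReal.tsum_le_tsum hpt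
    _ = (((S.M - 1 : ℕ) : ℝ≥0∞) / (S.M : ℝ≥0∞)) * (S.P Λ) (S.A Λ b n) := by
        rw [ENNReal.tsum_mul_left]
        congr 1
        unfold A
        refine (measure_iUnion ?_ (fun p : ℕ × (V × V) => S.meas_F Λ b n p.1 p.2)).symm
        intro p q hpq
        exact S.F_disjoint Λ b n (by simpa using hpq)

/-- an infinite horizontal path from `b` -/
def Bad : Set (V → L) := {ω | S.Gd Λ ω ∧ (∀ k, S.isH ((S.N Λ ω)^[k] b)) ∧
    Function.Injective (fun k : ℕ => (S.N Λ ω)^[k] b)}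

omit [Countable V] in
include hb in
theorem Bad_subset (n : ℕ) : S.Bad Λ b ⊆ S.A Λ b n := by
  classical
  rintro ω ⟨h1, h2, h3⟩
  have hex : ∃ l, n + 1 ≤ (S.heads Λ b ω l).card := by
    by_contra hcon
    push Not at hcon
    have hfin : (Set.range (fun j : ℕ => ((S.N Λ ω)^[j] b).2)).Finite := by
      by_contra hinf
      obtain ⟨s, hs1, hs2⟩ := Set.Infinite.exists_subset_card_eq hinf (n + 1)
      have hch : ∀ x ∈ s, ∃ j : ℕ, ((S.N Λ ω)^[j] b).2 = x := fun x hx => hs1 hx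
      choose! g hg using hch
      have hsub : s ⊆ S.heads Λ b ω (s.sup g) := by
        intro x hx
        rw [← hg x hx]
        exact S.mem_heads Λ b ω (Finset.le_sup hx)
      have := Finset.card_le_card hsub
      have := hcon (s.sup g)
      omega
    have hfin2 : (Set.range (fun k : ℕ => (S.N Λ ω)^[k] b)).Finite := by
      apply Set.Finite.subset (hfin.biUnion (t := fun y =>
        ((S.G.neighborFinset y : Finset V) : Set V) ×ˢ ({y} : Set V))
        (fun y _ => (Finset.finite_toSet _).prod (Set.finite_singleton y)))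
      rintro _ ⟨k, rfl⟩
      rw [Set.mem_iUnion₂]
      refine ⟨((S.N Λ ω)^[k] b).2, ⟨k, rfl⟩, ?_, rfl⟩
      rw [Finset.mem_coe, SimpleGraph.mem_neighborFinset]
      exact (S.adj_iter Λ b hb ω h1 k).symm
    exact Set.infinite_range_of_injective h3 hfin2
  obtain ⟨k, hk1, hk2, -⟩ := S.first_time Λ b ω n hex
  unfold A
  rw [Set.mem_iUnion]
  exact ⟨(k, (S.N Λ ω)^[k] b), h1, fun j _ => h2 j, rfl, hk2, hk1⟩

include hb in
theorem Bad_null : (S.P Λ) (S.Bad Λ b) = 0 := by
  have hM := S.M_pos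
  set θ : ℝ≥0∞ := ((S.M - 1 : ℕ) : ℝ≥0∞) / (S.M : ℝ≥0∞) with hθ
  have hθ1 : θ < 1 := by
    rw [hθ, ENNReal.div_lt_iff]
    · rw [one_mul]
      exact_mod_cast Nat.sub_lt hM one_pos
    · left
      exact_mod_cast hM.ne'
    · left
      exact ENNReal.natCast_ne_top _
  have h1 : ∀ n, (S.P Λ) (S.A Λ b n) ≤ θ ^ n := by
    intro n
    induction n with
    | zero => rw [pow_zero]; exact prob_le_one
    | succ n ih =>
      rw [pow_succ, mul_comm]
      exact (S.A_step Λ b hb n).trans (mul_le_mul_right ih _)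
  have h2 : ∀ n, (S.P Λ) (S.Bad Λ b) ≤ θ ^ n := fun n =>
    (measure_mono (S.Bad_subset Λ b hb n)).trans (h1 n)
  have h3 := ENNReal.tendsto_pow_atTop_nhds_zero_of_lt_one hθ1
  exact le_antisymm (ge_of_tendsto' h3 h2) bot_le

end run

theorem ae_noInf : ∀ᵐ ω ∂(S.P Λ), S.Gd Λ ω ∧
    S.NoInf (fun x => Λ.z0 (ω x)) (fun x => Λ.t0 (ω x)) := by
  have h1 : ∀ᵐ ω ∂(S.P Λ), ∀ b : V × V, S.G.Adj b.1 b.2 → ω ∉ S.Bad Λ b := by
    rw [ae_all_iff]
    intro b
    by_cases hb : S.G.Adj b.1 b.2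
    · have h2 := S.Bad_null Λ b hb
      have h3 : ∀ᵐ ω ∂(S.P Λ), ω ∉ S.Bad Λ b := by
        rw [ae_iff]
        simpa using h2
      filter_upwards [h3] with ω hω _ using hω
    · exact Filter.Eventually.of_forall fun ω h => absurd h hb
  filter_upwards [S.ae_good Λ, h1] with ω hω hω2
  refine ⟨hω, fun b hb => ?_⟩
  by_contra hcon
  push Not at hcon
  exact hω2 b hb ⟨hω, hcon.1, hcon.2⟩

end Sys

end Pool.Agent.FIIDBO
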